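import Mathlib

/-!
# Finite maps: nilpotence and spanning by squarefree monomials
-/

set_option autoImplicit false

namespace Pool.Agent.R991.Alg

open MvPolynomial

variable {m : ℕ}

lemma pow_le_of_zero (P : Fin m → MvPolynomial (Fin m) ℂ)
    (h : ∀ u : Fin m → ℂ, (∀ k, eval u (P k) = 0) → u = 0) :
    ∃ N, idealOfVars (Fin m) ℂ ^ N ≤ Ideal.span (Set.range P) := by
  apply Ideal.exists_pow_le_of_le_radical_of_fg _ (idealOfVars_fg _ _)
  rw [← vanishingIdeal_zeroLocus_eq_radical (K := ℂ)]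
  rw [idealOfVars, Ideal.span_le]
  rintro _ ⟨j, rfl⟩
  rw [SetLike.mem_coe, mem_vanishingIdeal_iff]
  intro u hu
  have : u = 0 := by
    apply h
    intro k
    have := hu (P k) (Ideal.subset_span ⟨k, rfl⟩)
    simpa [aeval_eq_eval] using this
  rw [this]
  simp

/-- `f` is a combination of the squarefree monomials in `w` modulo `I`. -/
def W (I : Ideal (MvPolynomial (Fin m) ℂ)) (w : Fin m → MvPolynomial (Fin m) ℂ) :
    Submodule ℂ (MvPolynomial (Fin m) ℂ) where
  carrier := {f | ∃ c : Finset (Fin m) → ℂ, f - ∑ F, C (c F) * ∏ n ∈ F, w n ∈ I}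
  add_mem' := by
    rintro f g ⟨c, hc⟩ ⟨d, hd⟩
    refine ⟨fun F => c F + d F, ?_⟩
    have : f + g - ∑ F, C (c F + d F) * ∏ n ∈ F, w n
        = (f - ∑ F, C (c F) * ∏ n ∈ F, w n) + (g - ∑ F, C (d F) * ∏ n ∈ F, w n) := by
      simp only [C_add, add_mul, Finset.sum_add_distrib]; ring
    rw [this]
    exact I.add_mem hc hd
  zero_mem' := ⟨fun _ => 0, by simp⟩
  smul_mem' := by
    rintro a f ⟨c, hc⟩
    refine ⟨fun F => a * c F, ?_⟩
    have : a • f - ∑ F, C (a * c F) * ∏ n ∈ F, w n
        = C a * (f - ∑ F, C (c F) * ∏ n ∈ F, w n) := by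
      simp only [C_mul, mul_sub, Finset.mul_sum, mul_assoc, smul_eq_C_mul]
    rw [this]
    exact I.mul_mem_left _ hc

lemma mem_W_of_mem {I : Ideal (MvPolynomial (Fin m) ℂ)} (w : Fin m → MvPolynomial (Fin m) ℂ)
    {f : MvPolynomial (Fin m) ℂ} (hf : f ∈ I) : f ∈ W I w :=
  ⟨fun _ => 0, by simpa using hf⟩

lemma prod_mem_W (I : Ideal (MvPolynomial (Fin m) ℂ)) (w : Fin m → MvPolynomial (Fin m) ℂ)
    (F : Finset (Fin m)) : ∏ n ∈ F, w n ∈ W I w := by
  refine ⟨fun G => if G = F then 1 else 0, ?_⟩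
  rw [Finset.sum_eq_single F]
  · simp
  · intro b _ hb
    simp [hb]
  · simp

/-- the products of `j` elements of `w` -/
noncomputable def Sp (w : Fin m → MvPolynomial (Fin m) ℂ) (j : ℕ) : Submodule ℂ (MvPolynomial (Fin m) ℂ) :=
  Submodule.span ℂ {p | ∃ s : Multiset (Fin m), s.card = j ∧ (s.map w).prod = p}

lemma pow_le_Sp (w : Fin m → MvPolynomial (Fin m) ℂ) (hw : ∀ n, w n ∈ idealOfVars (Fin m) ℂ)
    (hw2 : idealOfVars (Fin m) ℂ ≤ Ideal.span (Set.range w)) (j : ℕ) :
    ∀ f ∈ idealOfVars (Fin m) ℂ ^ j,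
      ∃ p ∈ Sp w j, f - p ∈ idealOfVars (Fin m) ℂ ^ (j + 1) := by
  induction j with
  | zero =>
    intro f _
    refine ⟨C (coeff 0 f), ?_, ?_⟩
    · have : (C (coeff 0 f) : MvPolynomial (Fin m) ℂ) = coeff 0 f • 1 := by
        rw [smul_eq_C_mul, mul_one]
      rw [this]
      apply Submodule.smul_mem
      exact Submodule.subset_span ⟨0, by simp⟩
    · rw [mem_pow_idealOfVars_iff']
      intro x hx
      have hx0 : x = 0 := by
        have : x.degree = 0 := by omega
        exact (Finsupp.degree_eq_zero_iff x).mp this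
      subst hx0
      simp
  | succ j ih =>
    intro f hf
    rw [pow_succ] at hf
    induction hf using Submodule.mul_induction_on' with
    | mem_mul_mem a ha b hb =>
      obtain ⟨r, hr⟩ := (Submodule.mem_span_range_iff_exists_fun _).mp (hw2 hb)
      have h1 : ∀ n, ∃ p ∈ Sp w j, a * r n - p ∈ idealOfVars (Fin m) ℂ ^ (j + 1) := fun n =>
        ih _ (Ideal.mul_mem_right _ _ ha)
      choose p hp hp2 using h1
      refine ⟨∑ n, p n * w n, ?_, ?_⟩
      · apply Submodule.sum_mem
        intro n _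
        have h2 : Sp w j ≤ (Sp w (j + 1)).comap (LinearMap.mulRight ℂ (w n)) := by
          rw [Sp, Submodule.span_le]
          rintro _ ⟨s, hs, rfl⟩
          apply Submodule.subset_span
          refine ⟨n ::ₘ s, by simp [hs], ?_⟩
          simp [mul_comm]
        exact h2 (hp n)
      · have : a * b - ∑ n, p n * w n = ∑ n, (a * r n - p n) * w n := by
          rw [← hr, Finset.mul_sum, ← Finset.sum_sub_distrib]
          apply Finset.sum_congr rfl
          intro n _
          simp only [smul_eq_mul]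
          ring
        rw [this]
        apply Ideal.sum_mem
        intro n _
        rw [pow_succ]
        exact Ideal.mul_mem_mul (hp2 n) (hw n)
    | add a _ b _ ha hb =>
      obtain ⟨p, hp, hp2⟩ := ha
      obtain ⟨p', hp', hp2'⟩ := hb
      refine ⟨p + p', Submodule.add_mem _ hp hp', ?_⟩
      have : a + b - (p + p') = (a - p) + (b - p') := by ring
      rw [this]
      exact Ideal.add_mem _ hp2 hp2'

lemma prod_mem_pow (w : Fin m → MvPolynomial (Fin m) ℂ) (hw : ∀ n, w n ∈ idealOfVars (Fin m) ℂ)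
    (s : Multiset (Fin m)) : (s.map w).prod ∈ idealOfVars (Fin m) ℂ ^ s.card := by
  induction s using Multiset.induction_on with
  | empty => simp
  | cons a s ih =>
    rw [Multiset.map_cons, Multiset.prod_cons, Multiset.card_cons, pow_succ']
    exact Ideal.mul_mem_mul (hw a) ih

theorem span_squarefree (I : Ideal (MvPolynomial (Fin m) ℂ))
    (w : Fin m → MvPolynomial (Fin m) ℂ) (hw : ∀ n, w n ∈ idealOfVars (Fin m) ℂ)
    (hw2 : idealOfVars (Fin m) ℂ ≤ Ideal.span (Set.range w))
    (hL : ∀ n, ∃ g ∈ I, g - w n ^ 2 ∈ idealOfVars (Fin m) ℂ ^ 3) (N : ℕ)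
    (hN : idealOfVars (Fin m) ℂ ^ N ≤ I) (f : MvPolynomial (Fin m) ℂ) :
    ∃ c : Finset (Fin m) → ℂ, f - ∑ F, C (c F) * ∏ n ∈ F, w n ∈ I := by
  have step : ∀ j, (∀ f ∈ idealOfVars (Fin m) ℂ ^ (j + 1), f ∈ W I w) →
      ∀ f ∈ idealOfVars (Fin m) ℂ ^ j, f ∈ W I w := by
    intro j hj f hf
    obtain ⟨p, hp, hp2⟩ := pow_le_Sp w hw hw2 j f hf
    have h1 : Sp w j ≤ W I w := by
      rw [Sp, Submodule.span_le]
      rintro _ ⟨s, hs, rfl⟩
      rw [SetLike.mem_coe]
      by_cases hnd : s.Nodup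
      · have := prod_mem_W I w ⟨s, hnd⟩
        exact this
      · rw [Multiset.nodup_iff_le] at hnd
        push Not at hnd
        obtain ⟨n, hn⟩ := hnd
        obtain ⟨t, rfl⟩ := Multiset.le_iff_exists_add.mp hn
        obtain ⟨g, hg, hg2⟩ := hL n
        have e : (((n ::ₘ n ::ₘ 0 + t)).map w).prod
            = g * (t.map w).prod - (g - w n ^ 2) * (t.map w).prod := by
          simp
          ring
        rw [e]
        apply Submodule.sub_mem
        · exact mem_W_of_mem w (Ideal.mul_mem_right _ _ hg)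
        · apply hj
          have h3 : j + 1 = 3 + t.card := by
            rw [← hs]; simp; ring
          rw [h3, pow_add]
          exact Ideal.mul_mem_mul hg2 (prod_mem_pow w hw t)
    have : f = p + (f - p) := by ring
    rw [this]
    exact Submodule.add_mem _ (h1 hp) (hj _ hp2)
  have all : ∀ i, ∀ f ∈ idealOfVars (Fin m) ℂ ^ (N - i), f ∈ W I w := by
    intro i
    induction i with
    | zero => intro f hf; exact mem_W_of_mem w (hN hf)
    | succ i ih =>
      by_cases hi : i < N
      · apply step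
        have : N - (i + 1) + 1 = N - i := by omega
        rw [this]
        exact ih
      · have : N - (i + 1) = N - i := by omega
        rw [this]
        exact ih
  exact all N f (by simp)

end Pool.Agent.R991.Alg
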