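import Pool.Agent.R991.AlgA

/-!
# Finite maps: representation, the determinant trick and counting
-/

set_option autoImplicit false

namespace Pool.Agent.R991.Alg

open MvPolynomial

variable {m : ℕ}

/-! ### Weighted degree -/

/-- polynomials of weighted degree at most `d` -/
noncomputable def Sw (wt : Fin m → ℕ) (d : ℕ) : Submodule ℂ (MvPolynomial (Fin m) ℂ) :=
  restrictSupport ℂ {a | ∑ k, wt k * a k ≤ d}

lemma mem_Sw {wt : Fin m → ℕ} {d : ℕ} {f : MvPolynomial (Fin m) ℂ} :
    f ∈ Sw wt d ↔ ∀ a ∈ f.support, ∑ k, wt k * a k ≤ d := by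
  rw [Sw, mem_restrictSupport_iff]
  rfl

lemma Sw_mono (wt : Fin m → ℕ) {d e : ℕ} (h : d ≤ e) : Sw wt d ≤ Sw wt e := by
  intro f hf
  rw [mem_Sw] at hf ⊢
  exact fun a ha => (hf a ha).trans h

lemma Sw_mul {wt : Fin m → ℕ} {d e : ℕ} {f g : MvPolynomial (Fin m) ℂ} (hf : f ∈ Sw wt d)
    (hg : g ∈ Sw wt e) : f * g ∈ Sw wt (d + e) := by
  classical
  rw [mem_Sw] at *
  intro a ha
  have := support_mul f g ha
  obtain ⟨b, hb, c, hc, rfl⟩ := Finset.mem_add.mp this
  simp only [Finsupp.add_apply, mul_add, Finset.sum_add_distrib]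
  exact Nat.add_le_add (hf b hb) (hg c hc)

lemma Sw_C (wt : Fin m → ℕ) (d : ℕ) (c : ℂ) : C c ∈ Sw wt d := by
  rw [mem_Sw]
  intro a ha
  have : a = 0 := by
    rw [mem_support_iff, coeff_C] at ha
    by_contra h
    exact ha (if_neg (fun h' => h h'.symm))
  subst this
  simp

lemma Sw_X (wt : Fin m → ℕ) (k : Fin m) : (X k : MvPolynomial (Fin m) ℂ) ∈ Sw wt (wt k) := by
  rw [mem_Sw]
  intro a ha
  rw [support_X, Finset.mem_singleton] at ha
  subst ha
  rw [Finset.sum_eq_single k]
  · simp
  · intro b _ hb
    rw [Finsupp.single_eq_of_ne hb]; simp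
  · simp

lemma exists_Sw (wt : Fin m → ℕ) (f : MvPolynomial (Fin m) ℂ) : ∃ d, f ∈ Sw wt d := by
  refine ⟨∑ a ∈ f.support, ∑ k, wt k * a k, ?_⟩
  rw [mem_Sw]
  intro a ha
  exact Finset.single_le_sum (f := fun a : Fin m →₀ ℕ => ∑ k, wt k * a k)
    (fun _ _ => Nat.zero_le _) ha

/-! ### Representations -/

variable {ι : Type} [Fintype ι]

/-- `s ↦ ∑ s_i(P) b_i` -/
noncomputable def Phi (P : Fin m → MvPolynomial (Fin m) ℂ) (b : ι → MvPolynomial (Fin m) ℂ) :
    (ι → MvPolynomial (Fin m) ℂ) →ₗ[ℂ] MvPolynomial (Fin m) ℂ where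
  toFun s := ∑ i, aeval P (s i) * b i
  map_add' s t := by simp [add_mul, Finset.sum_add_distrib]
  map_smul' c s := by simp [Finset.smul_sum]

/-- The combinations of `b_i` with coefficients of weighted degree at most `d`. -/
noncomputable def E (wt : Fin m → ℕ) (P : Fin m → MvPolynomial (Fin m) ℂ)
    (b : ι → MvPolynomial (Fin m) ℂ) (d : ℕ) : Submodule ℂ (MvPolynomial (Fin m) ℂ) :=
  (Submodule.pi Set.univ (fun _ : ι => Sw wt d)).map (Phi P b)

lemma mem_E {wt : Fin m → ℕ} {P : Fin m → MvPolynomial (Fin m) ℂ}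
    {b : ι → MvPolynomial (Fin m) ℂ} {d : ℕ} {f : MvPolynomial (Fin m) ℂ} :
    f ∈ E wt P b d ↔ ∃ s : ι → MvPolynomial (Fin m) ℂ, (∀ i, s i ∈ Sw wt d) ∧
      ∑ i, aeval P (s i) * b i = f := by
  rw [E, Submodule.mem_map]
  constructor
  · rintro ⟨s, hs, rfl⟩
    exact ⟨s, fun i => hs i (Set.mem_univ i), rfl⟩
  · rintro ⟨s, hs, rfl⟩
    exact ⟨s, fun i _ => hs i, rfl⟩

lemma E_mono (wt : Fin m → ℕ) (P : Fin m → MvPolynomial (Fin m) ℂ)
    (b : ι → MvPolynomial (Fin m) ℂ) {d e : ℕ} (h : d ≤ e) : E wt P b d ≤ E wt P b e := by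
  intro f hf
  rw [mem_E] at hf ⊢
  obtain ⟨s, hs, rfl⟩ := hf
  exact ⟨s, fun i => Sw_mono wt h (hs i), rfl⟩

lemma E_mul_P {wt : Fin m → ℕ} {P : Fin m → MvPolynomial (Fin m) ℂ}
    {b : ι → MvPolynomial (Fin m) ℂ} {d : ℕ} {f : MvPolynomial (Fin m) ℂ}
    (hf : f ∈ E wt P b d) (k : Fin m) : P k * f ∈ E wt P b (d + wt k) := by
  rw [mem_E] at hf ⊢
  obtain ⟨s, hs, rfl⟩ := hf
  refine ⟨fun i => s i * X k, fun i => Sw_mul (hs i) (Sw_X wt k), ?_⟩
  rw [Finset.mul_sum]
  apply Finset.sum_congr rfl
  intro i _
  rw [map_mul, aeval_X]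
  ring

/-- The monomials with all exponents less than `q`. -/
noncomputable def mon (m q : ℕ) (n : Fin m → Fin q) : MvPolynomial (Fin m) ℂ :=
  ∏ j, X j ^ (n j : ℕ)

lemma rep {q : ℕ} (wt : Fin m → ℕ) (hwt1 : ∀ k, 1 ≤ wt k) (hwtq : ∀ k, wt k ≤ q)
    (P : Fin m → MvPolynomial (Fin m) ℂ)
    (hT : ∀ j, ∃ c : Fin m → ℂ,
      (X j ^ q - ∑ k, C (c k) * P k * X j ^ (q - wt k) : MvPolynomial (Fin m) ℂ).totalDegree < q)
    (d : ℕ) : ∀ f : MvPolynomial (Fin m) ℂ, f.totalDegree ≤ d → f ∈ E wt P (mon m q) d := by
  induction d using Nat.strong_induction_on with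
  | _ d ih =>
    intro f hf
    have key : ∀ a : Fin m →₀ ℕ, ∑ j, a j ≤ d →
        (∏ j, X j ^ a j : MvPolynomial (Fin m) ℂ) ∈ E wt P (mon m q) d := by
      intro a ha
      by_cases hlt : ∀ j, a j < q
      · rw [mem_E]
        classical
        refine ⟨fun n => if n = (fun j => ⟨a j, hlt j⟩) then C 1 else C 0, ?_, ?_⟩
        · intro n
          dsimp only
          split_ifs
          · exact Sw_C _ _ _
          · exact Sw_C _ _ _
        · rw [Finset.sum_eq_single (fun j => ⟨a j, hlt j⟩)]
          · simp [mon]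
          · intro n _ hn
            simp [hn]
          · simp
      · push Not at hlt
        obtain ⟨j, hj⟩ := hlt
        obtain ⟨c, hc⟩ := hT j
        set g := (X j ^ q - ∑ k, C (c k) * P k * X j ^ (q - wt k) : MvPolynomial (Fin m) ℂ) with hg
        set r : MvPolynomial (Fin m) ℂ := ∏ i, X i ^ (if i = j then a i - q else a i) with hr
        have hsum : ∑ i, (if i = j then a i - q else a i) + q = ∑ i, a i := by
          have h1 : ∑ i, a i = ∑ i, ((if i = j then a i - q else a i) + (if i = j then q else 0)) := by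
            apply Finset.sum_congr rfl
            intro i _
            by_cases hij : i = j
            · subst hij; simp only [if_true]; omega
            · simp [hij]
          rw [h1, Finset.sum_add_distrib, Finset.sum_ite_eq' Finset.univ j (fun _ => q)]
          simp
        have hrd : r.totalDegree ≤ ∑ i, (if i = j then a i - q else a i) := by
          refine (totalDegree_finsetProd _ _).trans ?_
          apply Finset.sum_le_sum
          intro i _
          refine (totalDegree_pow _ _).trans ?_
          rw [totalDegree_X, mul_one]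
        have hprod : (∏ i, X i ^ a i : MvPolynomial (Fin m) ℂ) = r * X j ^ q := by
          have h1 : (X j ^ q : MvPolynomial (Fin m) ℂ) = ∏ i, (if i = j then X i ^ q else 1) := by
            rw [Finset.prod_ite_eq' Finset.univ j (fun i => (X i ^ q : MvPolynomial (Fin m) ℂ))]
            simp
          rw [h1, hr, ← Finset.prod_mul_distrib]
          apply Finset.prod_congr rfl
          intro i _
          by_cases hij : i = j
          · subst hij
            rw [if_pos rfl, if_pos rfl, ← pow_add]
            congr 1; omega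
          · simp [hij]
        have e1 : (∏ i, X i ^ a i : MvPolynomial (Fin m) ℂ)
            = r * g + ∑ k, c k • (P k * (r * X j ^ (q - wt k))) := by
          rw [hprod, hg, mul_sub, Finset.mul_sum]
          have : ∀ k, c k • (P k * (r * X j ^ (q - wt k))) = r * (C (c k) * P k * X j ^ (q - wt k)) := by
            intro k
            rw [smul_eq_C_mul]; ring
          simp only [this]
          ring
        rw [e1]
        have hq : 1 ≤ q := by omega
        apply Submodule.add_mem
        · have hd1 : (r * g).totalDegree ≤ d - 1 := by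
            refine (totalDegree_mul _ _).trans ?_
            omega
          exact E_mono wt P _ (Nat.sub_le d 1) (ih (d - 1) (by omega) _ hd1)
        · apply Submodule.sum_mem
          intro k _
          apply Submodule.smul_mem
          have h1 := hwt1 k
          have h2 := hwtq k
          have hd1 : (r * X j ^ (q - wt k)).totalDegree ≤ d - wt k := by
            refine (totalDegree_mul _ _).trans ?_
            have : (X j ^ (q - wt k) : MvPolynomial (Fin m) ℂ).totalDegree ≤ q - wt k := by
              refine (totalDegree_pow _ _).trans ?_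
              rw [totalDegree_X, mul_one]
            omega
          have h3 := E_mul_P (ih (d - wt k) (by omega) _ hd1) k
          rwa [Nat.sub_add_cancel (by omega)] at h3
    rw [f.as_sum]
    apply Submodule.sum_mem
    intro a ha
    have e : monomial a (coeff a f) = coeff a f • (∏ j, X j ^ a j : MvPolynomial (Fin m) ℂ) := by
      rw [monomial_eq, smul_eq_C_mul, Finsupp.prod_fintype _ _ (by simp)]
    rw [e]
    apply Submodule.smul_mem
    apply key
    refine le_trans ?_ hf
    have := le_totalDegree ha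
    rwa [Finsupp.sum_fintype _ _ (by simp)] at this

/-! ### The determinant trick -/

theorem det_trick {ι0 ιB : Type} [Fintype ι0] [DecidableEq ι0] [Fintype ιB]
    (P : Fin m → MvPolynomial (Fin m) ℂ)
    (β : ι0 → MvPolynomial (Fin m) ℂ) (b : ιB → MvPolynomial (Fin m) ℂ)
    (h1 : ∀ f : MvPolynomial (Fin m) ℂ, ∃ c : ιB → ℂ, f - ∑ F, C (c F) * b F ∈ Ideal.span (Set.range P))
    (h2 : ∀ f : MvPolynomial (Fin m) ℂ, ∃ s : ι0 → MvPolynomial (Fin m) ℂ,
      ∑ i, aeval P (s i) * β i = f) :
    ∃ δ : MvPolynomial (Fin m) ℂ, constantCoeff δ = 1 ∧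
      ∃ G : ι0 → ιB → MvPolynomial (Fin m) ℂ, ∀ i, aeval P δ * β i = ∑ F, aeval P (G i F) * b F := by
  choose c hc using fun i => h1 (β i)
  have hr : ∀ i, ∃ r : Fin m → MvPolynomial (Fin m) ℂ,
      ∑ k, r k * P k = β i - ∑ F, C (c i F) * b F := by
    intro i
    obtain ⟨r, hr⟩ := (Submodule.mem_span_range_iff_exists_fun _).mp (hc i)
    exact ⟨r, by simpa using hr⟩
  choose r hr using hr
  choose s hs using h2
  set M : Matrix ι0 ι0 (MvPolynomial (Fin m) ℂ) :=
    Matrix.of fun i i' => ∑ k, X k * s (r i k) i' with hM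
  set N : Matrix ι0 ι0 (MvPolynomial (Fin m) ℂ) := 1 - M with hN
  refine ⟨N.det, ?_, fun i F => ∑ i', N.adjugate i i' * C (c i' F), ?_⟩
  · have h0 : (constantCoeff : MvPolynomial (Fin m) ℂ →+* ℂ).mapMatrix N = 1 := by
      ext i j
      simp [hN, hM, Matrix.one_apply]
    rw [RingHom.map_det, h0, Matrix.det_one]
  · -- the relation `N β = c b`
    have hrel : ∀ i, ∑ i', aeval P (N i i') * β i' = ∑ F, C (c i F) * b F := by
      intro i
      have e1 : ∀ i', aeval P (N i i') * β i' = (if i = i' then β i' else 0)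
          - ∑ k, P k * (aeval P (s (r i k) i') * β i') := by
        intro i'
        simp only [hN, hM, Matrix.sub_apply, Matrix.of_apply, Matrix.one_apply, map_sub, map_sum,
          map_mul, aeval_X, sub_mul, Finset.sum_mul]
        congr 1
        · split_ifs <;> simp
        · apply Finset.sum_congr rfl
          intro k _
          ring
      simp only [e1]
      rw [Finset.sum_sub_distrib, Finset.sum_ite_eq, if_pos (Finset.mem_univ i), Finset.sum_comm]
      simp only [← Finset.mul_sum, hs]
      have := hr i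
      rw [sub_eq_iff_eq_add, ← sub_eq_iff_eq_add', ← this]
      apply Finset.sum_congr rfl
      intro k _
      ring
    intro i
    have hadj : ∀ i i'', ∑ i', N.adjugate i i' * N i' i'' = if i = i'' then N.det else 0 := by
      intro i i''
      have := congrFun (congrFun (Matrix.adjugate_mul N) i) i''
      rw [Matrix.mul_apply] at this
      rw [this, Matrix.smul_apply, Matrix.one_apply]
      split_ifs <;> simp
    have e2 : aeval P N.det * β i
        = ∑ i', aeval P (N.adjugate i i') * ∑ i'', aeval P (N i' i'') * β i'' := by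
      have e3 : aeval P N.det * β i = ∑ i'', aeval P (if i = i'' then N.det else 0) * β i'' := by
        rw [Finset.sum_eq_single i]
        · simp
        · intro b _ hb
          rw [if_neg hb.symm]; simp
        · simp
      rw [e3]
      simp only [← hadj, map_sum, map_mul, Finset.sum_mul, Finset.mul_sum]
      rw [Finset.sum_comm]
      apply Finset.sum_congr rfl
      intro i' _
      apply Finset.sum_congr rfl
      intro i'' _
      ring
    rw [e2]
    simp only [hrel, map_sum, map_mul, Finset.sum_mul, Finset.mul_sum, aeval_C]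
    rw [Finset.sum_comm]
    apply Finset.sum_congr rfl
    intro F _
    apply Finset.sum_congr rfl
    intro i' _
    rw [mul_assoc]
    rfl

end Pool.Agent.R991.Alg
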