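import Pool.Agent.R991.AlgB

/-!
# Finite maps: counting, and the existence of a nonzero common zero
-/

set_option autoImplicit false

namespace Pool.Agent.R991.Alg

open MvPolynomial

variable {m : ℕ}

lemma growth (f : ℕ → ℕ) (m K : ℕ) (h0 : 1 ≤ f 0) (h1 : ∀ d, 2 * f d ≤ f (d + K))
    (h2 : ∀ d, f d ≤ (d + 1) ^ m) : False := by
  have h3 : ∀ j, 2 ^ j ≤ f (j * K) := by
    intro j
    induction j with
    | zero => simpa using h0
    | succ j ih =>
      rw [pow_succ, add_mul, one_mul]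
      have := h1 (j * K)
      omega
  have h4 : ∀ j : ℕ, 1 ≤ j → (2 : ℝ) ^ j ≤ ((K + 1 : ℕ) : ℝ) ^ m * (j : ℝ) ^ m := by
    intro j hj
    have h5 := (h3 j).trans (h2 (j * K))
    have h6 : j * K + 1 ≤ (K + 1) * j := by nlinarith
    have h7 : (j * K + 1) ^ m ≤ ((K + 1) * j) ^ m := Nat.pow_le_pow_left h6 m
    have h8 := h5.trans h7
    rw [mul_pow] at h8
    exact_mod_cast h8
  have ht := (tendsto_pow_const_div_const_pow_of_one_lt m (one_lt_two (α := ℝ))).const_mul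
    (((K + 1 : ℕ) : ℝ) ^ m)
  rw [mul_zero] at ht
  have h5 := (ht.eventually_lt_const one_pos).and (Filter.eventually_ge_atTop 1)
  obtain ⟨j, hj1, hj2⟩ := h5.exists
  have h6 := h4 j hj2
  have h7 : (0 : ℝ) < 2 ^ j := by positivity
  rw [← mul_div_assoc, div_lt_one h7] at hj1
  linarith

/-- The number of exponents of weighted degree at most `d` -/
noncomputable def cntw (wt : Fin m → ℕ) (d : ℕ) : ℕ :=
  Nat.card {a : Fin m →₀ ℕ // ∑ k, wt k * a k ≤ d}

/-- The embedding in a box. -/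
def box (wt : Fin m → ℕ) (hwt : ∀ k, 1 ≤ wt k) (d : ℕ)
    (a : {a : Fin m →₀ ℕ // ∑ k, wt k * a k ≤ d}) (k : Fin m) : Fin (d + 1) :=
  ⟨a.1 k, by
    have h1 := a.2
    have h2 : wt k * a.1 k ≤ ∑ k, wt k * a.1 k :=
      Finset.single_le_sum (f := fun k => wt k * a.1 k) (fun _ _ => Nat.zero_le _)
        (Finset.mem_univ k)
    have h3 : 1 * a.1 k ≤ wt k * a.1 k := Nat.mul_le_mul_right _ (hwt k)
    omega⟩

lemma box_inj (wt : Fin m → ℕ) (hwt : ∀ k, 1 ≤ wt k) (d : ℕ) :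
    Function.Injective (box wt hwt d) := by
  intro a b h
  apply Subtype.ext
  ext k
  have := congrFun h k
  simpa [box] using this

lemma finite_w (wt : Fin m → ℕ) (hwt : ∀ k, 1 ≤ wt k) (d : ℕ) :
    Finite {a : Fin m →₀ ℕ // ∑ k, wt k * a k ≤ d} :=
  Finite.of_injective _ (box_inj wt hwt d)

lemma cntw_le (wt : Fin m → ℕ) (hwt : ∀ k, 1 ≤ wt k) (d : ℕ) : cntw wt d ≤ (d + 1) ^ m := by
  have := Nat.card_le_card_of_injective _ (box_inj wt hwt d)
  simpa [cntw, Nat.card_eq_fintype_card] using this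

lemma one_le_cntw (wt : Fin m → ℕ) (hwt : ∀ k, 1 ≤ wt k) (d : ℕ) : 1 ≤ cntw wt d := by
  have := finite_w wt hwt d
  have : Nonempty {a : Fin m →₀ ℕ // ∑ k, wt k * a k ≤ d} := ⟨⟨0, by simp⟩⟩
  exact Nat.card_pos

lemma prod_mul_cntw (wt : Fin m → ℕ) (hwt : ∀ k, 1 ≤ wt k) (d : ℕ) :
    (∏ k, wt k) * cntw wt d ≤ cntw (fun _ : Fin m => 1) (d + ∑ k, wt k) := by
  have hfin := finite_w (fun _ : Fin m => 1) (fun _ => le_rfl) (d + ∑ k, wt k)
  let g : ((k : Fin m) → Fin (wt k)) × {a : Fin m →₀ ℕ // ∑ k, wt k * a k ≤ d} →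
      {a : Fin m →₀ ℕ // ∑ k, 1 * a k ≤ d + ∑ k, wt k} := fun x =>
    ⟨Finsupp.equivFunOnFinite.symm (fun k => wt k * x.2.1 k + (x.1 k : ℕ)), by
      simp only [Finsupp.equivFunOnFinite_symm_apply_apply, one_mul, Finset.sum_add_distrib]
      exact Nat.add_le_add x.2.2 (Finset.sum_le_sum fun k _ => (x.1 k).2.le)⟩
  have hg : Function.Injective g := by
    rintro ⟨r, a⟩ ⟨r', a'⟩ h
    have h1 : ∀ k, wt k * a.1 k + (r k : ℕ) = wt k * a'.1 k + (r' k : ℕ) := by
      intro k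
      have := congrArg (fun z => z.1 k) h
      simpa [g] using this
    have h2 : ∀ k, a.1 k = a'.1 k ∧ (r k : ℕ) = r' k := by
      intro k
      have e1 := congrArg (· / wt k) (h1 k)
      have e2 := congrArg (· % wt k) (h1 k)
      have hk : 0 < wt k := hwt k
      simp only [Nat.mul_add_div hk, Nat.mul_add_mod, Nat.div_eq_of_lt (r k).2,
        Nat.div_eq_of_lt (r' k).2, Nat.mod_eq_of_lt (r k).2, Nat.mod_eq_of_lt (r' k).2,
        add_zero] at e1 e2
      exact ⟨e1, e2⟩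
    have h3 : r = r' := by
      funext k; exact Fin.ext (h2 k).2
    have h4 : a = a' := by
      apply Subtype.ext; ext k; exact (h2 k).1
    rw [h3, h4]
  have := Nat.card_le_card_of_injective g hg
  rw [Nat.card_prod] at this
  simpa [cntw, Nat.card_eq_fintype_card, Fintype.card_pi] using this

lemma finrank_Sw (wt : Fin m → ℕ) (d : ℕ) : Module.finrank ℂ (Sw wt d) = cntw wt d :=
  Module.finrank_eq_nat_card_basis (basisRestrictSupport ℂ _)

lemma finite_Sw (wt : Fin m → ℕ) (hwt : ∀ k, 1 ≤ wt k) (d : ℕ) : Module.Finite ℂ (Sw wt d) := by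
  have : Finite {a : Fin m →₀ ℕ | ∑ k, wt k * a k ≤ d} := finite_w wt hwt d
  exact Module.Finite.of_basis (basisRestrictSupport ℂ {a | ∑ k, wt k * a k ≤ d})

lemma totalDegree_of_mem {d : ℕ} {f : MvPolynomial (Fin m) ℂ}
    (hf : f ∈ Sw (fun _ : Fin m => 1) d) : f.totalDegree ≤ d := by
  rw [mem_Sw] at hf
  rw [totalDegree, Finset.sup_le_iff]
  intro a ha
  rw [Finsupp.sum_fintype _ _ (by simp)]
  simpa using hf a ha

theorem exists_zero {q : ℕ} (wt : Fin m → ℕ) (hwt1 : ∀ k, 1 ≤ wt k) (hwtq : ∀ k, wt k ≤ q)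
    (hprod : 2 * 2 ^ m ≤ ∏ k, wt k) (P : Fin m → MvPolynomial (Fin m) ℂ)
    (hP0 : ∀ k, constantCoeff (P k) = 0)
    (hT : ∀ j, ∃ c : Fin m → ℂ,
      (X j ^ q - ∑ k, C (c k) * P k * X j ^ (q - wt k) : MvPolynomial (Fin m) ℂ).totalDegree < q)
    (w : Fin m → MvPolynomial (Fin m) ℂ) (hw : ∀ n, w n ∈ idealOfVars (Fin m) ℂ)
    (hw2 : idealOfVars (Fin m) ℂ ≤ Ideal.span (Set.range w))
    (hL : ∀ n, ∃ g ∈ Ideal.span (Set.range P), g - w n ^ 2 ∈ idealOfVars (Fin m) ℂ ^ 3) :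
    ∃ u : Fin m → ℂ, u ≠ 0 ∧ ∀ k, eval u (P k) = 0 := by
  by_contra hcon
  push Not at hcon
  obtain ⟨N, hN⟩ := pow_le_of_zero P (by
    intro u hu
    by_contra hu0
    obtain ⟨k, hk⟩ := hcon u hu0
    exact hk (hu k))
  have h1 := span_squarefree (Ideal.span (Set.range P)) w hw hw2 hL N hN
  have h2 : ∀ f : MvPolynomial (Fin m) ℂ, ∃ s : (Fin m → Fin q) → MvPolynomial (Fin m) ℂ,
      ∑ i, aeval P (s i) * mon m q i = f := by
    intro f
    obtain ⟨s, _, hs⟩ := mem_E.mp (rep wt hwt1 hwtq P hT f.totalDegree f le_rfl)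
    exact ⟨s, hs⟩
  obtain ⟨δ, hδ, G, hG⟩ := det_trick P (mon m q) (fun F : Finset (Fin m) => ∏ n ∈ F, w n) h1 h2
  -- the nonvanishing of `δ(P)`
  have hδ0 : aeval P δ ≠ 0 := by
    intro h
    have e : constantCoeff (aeval P δ) = constantCoeff δ := by
      have : (constantCoeff : MvPolynomial (Fin m) ℂ →+* ℂ).comp
          (aeval P : MvPolynomial (Fin m) ℂ →ₐ[ℂ] MvPolynomial (Fin m) ℂ).toRingHom
          = constantCoeff := by
        apply MvPolynomial.ringHom_ext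
        · intro c; simp
        · intro k; simp [hP0]
      exact congrFun (congrArg DFunLike.coe this) δ
    rw [h, hδ] at e
    simp at e
  -- a bound for the degrees of `G`
  obtain ⟨K, hK⟩ : ∃ K, ∀ i F, G i F ∈ Sw wt K := by
    choose K hK using fun i F => exists_Sw wt (G i F)
    refine ⟨∑ i, ∑ F, K i F, fun i F => Sw_mono wt ?_ (hK i F)⟩
    calc K i F ≤ ∑ F, K i F :=
          Finset.single_le_sum (f := fun F => K i F) (fun _ _ => Nat.zero_le _) (Finset.mem_univ F)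
      _ ≤ _ := Finset.single_le_sum (f := fun i => ∑ F, K i F) (fun _ _ => Nat.zero_le _)
          (Finset.mem_univ i)
  -- the dimension count
  have hdim : ∀ d, cntw (fun _ : Fin m => 1) d ≤ 2 ^ m * cntw wt (d + K) := by
    intro d
    have hfin := finite_Sw wt hwt1 (d + K)
    have hfin' := finite_Sw (fun _ : Fin m => 1) (fun _ => le_rfl) d
    let Ψ : (Finset (Fin m) → Sw wt (d + K)) →ₗ[ℂ] MvPolynomial (Fin m) ℂ :=
      (Phi P (fun F : Finset (Fin m) => ∏ n ∈ F, w n)) ∘ₗ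
        (LinearMap.pi fun i => (Sw wt (d + K)).subtype ∘ₗ LinearMap.proj i)
    have hmem : ∀ f ∈ Sw (fun _ : Fin m => 1) d, aeval P δ * f ∈ LinearMap.range Ψ := by
      intro f hf
      obtain ⟨s, hs, rfl⟩ := mem_E.mp (rep wt hwt1 hwtq P hT d f (totalDegree_of_mem hf))
      refine ⟨fun F => ⟨∑ i, s i * G i F, Submodule.sum_mem _ fun i _ => Sw_mul (hs i) (hK i F)⟩, ?_⟩
      change ∑ F, aeval P (∑ i, s i * G i F) * ∏ n ∈ F, w n = _
      have e1 : ∀ i, aeval P δ * (aeval P (s i) * mon m q i)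
          = aeval P (s i) * ∑ F, aeval P (G i F) * ∏ n ∈ F, w n := by
        intro i
        rw [← hG i]; ring
      rw [Finset.mul_sum]
      simp only [e1, map_sum, map_mul, Finset.sum_mul, Finset.mul_sum]
      rw [Finset.sum_comm]
      apply Finset.sum_congr rfl
      intro i _
      apply Finset.sum_congr rfl
      intro F _
      ring
    let φ : Sw (fun _ : Fin m => 1) d →ₗ[ℂ] LinearMap.range Ψ :=
      ((LinearMap.mulLeft ℂ (aeval P δ)) ∘ₗ (Sw (fun _ : Fin m => 1) d).subtype).codRestrict _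
        (fun f => hmem f.1 f.2)
    have hφ : Function.Injective φ := by
      intro f g h
      have := congrArg Subtype.val h
      change aeval P δ * f.1 = aeval P δ * g.1 at this
      exact Subtype.ext (mul_left_cancel₀ hδ0 this)
    have hfin2 : Module.Finite ℂ (LinearMap.range Ψ) := inferInstance
    calc cntw (fun _ : Fin m => 1) d = Module.finrank ℂ (Sw (fun _ : Fin m => 1) d) :=
          (finrank_Sw _ _).symm
      _ ≤ Module.finrank ℂ (LinearMap.range Ψ) := LinearMap.finrank_le_finrank_of_injective hφ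
      _ ≤ Module.finrank ℂ (Finset (Fin m) → Sw wt (d + K)) := LinearMap.finrank_range_le Ψ
      _ = 2 ^ m * cntw wt (d + K) := by
          rw [Module.finrank_pi_fintype]
          simp [finrank_Sw]
  apply growth (fun d => cntw (fun _ : Fin m => 1) d) m (K + ∑ k, wt k)
    (one_le_cntw _ (fun _ => le_rfl) 0) _ (fun d => cntw_le _ (fun _ => le_rfl) d)
  intro d
  have a1 := hdim d
  have a2 := prod_mul_cntw wt hwt1 (d + K)
  have a3 : 2 * 2 ^ m * cntw wt (d + K) ≤ (∏ k, wt k) * cntw wt (d + K) :=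
    Nat.mul_le_mul_right _ hprod
  have a4 : d + (K + ∑ k, wt k) = d + K + ∑ k, wt k := by ring
  rw [a4]
  calc 2 * cntw (fun _ : Fin m => 1) d ≤ 2 * (2 ^ m * cntw wt (d + K)) := Nat.mul_le_mul_left _ a1
    _ = 2 * 2 ^ m * cntw wt (d + K) := by ring
    _ ≤ _ := a3.trans a2

end Pool.Agent.R991.Alg
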