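import Mathlib

/-!
# Definitions: the ideal of the antisymmetric potentials isospectral to the zero potential

The indices `1, …, q` of the text are `0, …, q - 1` here, and `1, …, m` are `0, …, m - 1`,
where `m = ⌊q/2⌋`.
-/

set_option autoImplicit false

namespace Pool.Agent.R991.Flo

/-- The `q × q` matrix `L_V`: diagonal entries `V`, entries `1` next to the diagonal and in the
corners `(1, q)` and `(q, 1)`, zeros elsewhere. -/
def floquetMatrix {R : Type*} [CommRing R] {q : ℕ} (V : Fin q → R) : Matrix (Fin q) (Fin q) R :=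
  Matrix.of fun i j =>
    if i = j then V i
    else if i.val + 1 = j.val ∨ j.val + 1 = i.val ∨ (i.val = 0 ∧ j.val + 1 = q) ∨
      (j.val = 0 ∧ i.val + 1 = q) then 1
    else 0

/-- `D_V(λ) = det (L_V - λ I)`, as a polynomial in `λ = X`. -/
noncomputable def D {R : Type*} [CommRing R] {q : ℕ} (V : Fin q → R) : Polynomial R :=
  ((floquetMatrix V).map Polynomial.C
    - (Polynomial.X : Polynomial R) • (1 : Matrix (Fin q) (Fin q) (Polynomial R))).det

/-- The antisymmetric potential `(u_1, …, u_m, -u_m, …, -u_1)` if `q = 2m`, and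
`(u_1, …, u_m, 0, -u_m, …, -u_1)` if `q = 2m + 1`. -/
def antisymmetric {R : Type*} [CommRing R] (q : ℕ) (u : Fin (q / 2) → R) (j : Fin q) : R :=
  if h : j.val < q / 2 then u ⟨j.val, h⟩
  else if h : q - 1 - j.val < q / 2 then - u ⟨q - 1 - j.val, h⟩
  else 0

/-- `p'_k = (-1)^(q+k) [λ^(q-2k)] (D_U - D_0)` for the generic antisymmetric potential `U`,
`1 ≤ k ≤ m` (here `k` is `k.val + 1`). -/
noncomputable def pPrime (q : ℕ) (k : Fin (q / 2)) : MvPolynomial (Fin (q / 2)) ℂ :=
  (-1) ^ (q + (k.val + 1)) *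
    (D (antisymmetric q (MvPolynomial.X : Fin (q / 2) → MvPolynomial (Fin (q / 2)) ℂ))
      - D (0 : Fin q → MvPolynomial (Fin (q / 2)) ℂ)).coeff (q - 2 * (k.val + 1))

/-- The ideal `I' = ⟨p'_1, …, p'_m⟩`. -/
noncomputable def idealI (q : ℕ) : Ideal (MvPolynomial (Fin (q / 2)) ℂ) :=
  Ideal.span (Set.range (pPrime q))

/-- The common zero set `V(I') ⊆ ℂ^m`. -/
def zeroSet (q : ℕ) : Set (Fin (q / 2) → ℂ) :=
  {a | ∀ f ∈ idealI q, MvPolynomial.eval a f = 0}

/-- The multiplicative set of the polynomials which do not vanish at `a`, that is, the complement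
of the maximal ideal `𝔪_a` of the point `a`. -/
def nonvanishing {m : ℕ} (a : Fin m → ℂ) : Submonoid (MvPolynomial (Fin m) ℂ) where
  carrier := {f | MvPolynomial.eval a f ≠ 0}
  mul_mem' := by
    intro f g hf hg
    simp only [Set.mem_setOf_eq, map_mul, ne_eq, mul_eq_zero, not_or] at *
    exact ⟨hf, hg⟩
  one_mem' := by simp

/-- The multiplicity of `V(I')` at the point `a`: the dimension over `ℂ` of the localization
`(ℂ[u]/I')_{𝔪_a}` of `ℂ[u]/I'` at the classes of the polynomials which do not vanish at `a`. -/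
noncomputable def mult (q : ℕ) (a : Fin (q / 2) → ℂ) : Cardinal :=
  Module.rank ℂ (Localization ((nonvanishing a).map (Ideal.Quotient.mk (idealI q))))

end Pool.Agent.R991.Flo
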