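import Pool.Agent.R991.FloZeta

/-!
# The integrality relations
-/

set_option autoImplicit false

namespace Pool.Agent.R991.Flo

open MvPolynomial

variable {σ : Type*}

lemma deg_tm (x : ℕ → MvPolynomial σ ℂ) (hx : ∀ i, (x i).totalDegree ≤ 1) (n : ℕ) :
    (tm x (n + 2) 0 0).totalDegree ≤ n + 2 ∧ (tm x (n + 2) 0 1).totalDegree ≤ n + 1 ∧
      (tm x (n + 2) 1 0).totalDegree ≤ n + 1 ∧ (tm x (n + 2) 1 1).totalDegree ≤ n ∧
      (tm x (n + 2) 0 0 - ∏ i ∈ Finset.range (n + 2), x i).totalDegree ≤ n := by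
  induction n with
  | zero =>
    have e : tm x (0 + 2) = !![x 1 * x 0 - 1, - x 1; x 0, -1] := by
      ext i j
      fin_cases i <;> fin_cases j <;> simp [tm, T, Matrix.mul_apply, Fin.sum_univ_two]
      ring
    rw [e]
    have h0 := hx 0
    have h1 := hx 1
    refine ⟨?_, ?_, ?_, ?_, ?_⟩
    · simp only [Matrix.of_apply, Matrix.cons_val', Matrix.cons_val_zero]
      refine (totalDegree_sub _ _).trans (max_le ?_ ?_)
      · exact (totalDegree_mul _ _).trans (by omega)
      · simp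
    · simp only [Matrix.of_apply, Matrix.cons_val', Matrix.cons_val_zero, Matrix.cons_val_one]
      rw [totalDegree_neg]; omega
    · simp only [Matrix.of_apply, Matrix.cons_val', Matrix.cons_val_zero, Matrix.cons_val_one]
      omega
    · simp [totalDegree_neg]
    · simp [Finset.prod_range_succ, mul_comm]
  | succ n ih =>
    obtain ⟨i1, i2, i3, i4, i5⟩ := ih
    have hxn := hx (n + 2)
    have e : tm x (n + 1 + 2) = T (x (n + 2)) * tm x (n + 2) := rfl
    have e00 : tm x (n + 1 + 2) 0 0 = x (n + 2) * tm x (n + 2) 0 0 - tm x (n + 2) 1 0 := by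
      rw [e]; simp [T, Matrix.mul_apply, Fin.sum_univ_two]; ring
    have e01 : tm x (n + 1 + 2) 0 1 = x (n + 2) * tm x (n + 2) 0 1 - tm x (n + 2) 1 1 := by
      rw [e]; simp [T, Matrix.mul_apply, Fin.sum_univ_two]; ring
    have e10 : tm x (n + 1 + 2) 1 0 = tm x (n + 2) 0 0 := by
      rw [e]; simp [T, Matrix.mul_apply, Fin.sum_univ_two]
    have e11 : tm x (n + 1 + 2) 1 1 = tm x (n + 2) 0 1 := by
      rw [e]; simp [T, Matrix.mul_apply, Fin.sum_univ_two]
    refine ⟨?_, ?_, ?_, ?_, ?_⟩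
    · rw [e00]
      refine (totalDegree_sub _ _).trans (max_le ?_ (by omega))
      exact (totalDegree_mul _ _).trans (by omega)
    · rw [e01]
      refine (totalDegree_sub _ _).trans (max_le ?_ (by omega))
      exact (totalDegree_mul _ _).trans (by omega)
    · rw [e10]; omega
    · rw [e11]; omega
    · have : tm x (n + 1 + 2) 0 0 - ∏ i ∈ Finset.range (n + 1 + 2), x i
          = x (n + 2) * (tm x (n + 2) 0 0 - ∏ i ∈ Finset.range (n + 2), x i) - tm x (n + 2) 1 0 := by
        rw [e00, show n + 1 + 2 = (n + 2) + 1 by ring, Finset.prod_range_succ]; ring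
      rw [this]
      refine (totalDegree_sub _ _).trans (max_le ?_ (by omega))
      exact (totalDegree_mul _ _).trans (by omega)

lemma deg_trace (x : ℕ → MvPolynomial σ ℂ) (hx : ∀ i, (x i).totalDegree ≤ 1) (n : ℕ) :
    ((tm x (2 + n)).trace - ∏ i ∈ Finset.range (2 + n), x i).totalDegree ≤ n := by
  rw [add_comm 2 n]
  obtain ⟨i1, i2, i3, i4, i5⟩ := deg_tm x hx n
  have : (tm x (n + 2)).trace - ∏ i ∈ Finset.range (n + 2), x i
      = (tm x (n + 2) 0 0 - ∏ i ∈ Finset.range (n + 2), x i) + tm x (n + 2) 1 1 := by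
    rw [Matrix.trace_fin_two]; ring
  rw [this]
  exact (totalDegree_add _ _).trans (max_le i5 i4)

lemma eval_trace {R : Type*} [CommRing R] (V : ℕ → R) (q : ℕ) (l : R) :
    ((tm (xs V) q).trace).eval l = (tm (fun j => l - V j) q).trace := by
  have := tm_map (Polynomial.evalRingHom l) (xs V) q
  have e3 : (fun j => Polynomial.evalRingHom l (xs V j)) = fun j => l - V j := by
    funext j; simp [xs]
  rw [e3] at this
  rw [← this, Matrix.trace_fin_two, Matrix.trace_fin_two, Polynomial.eval_add]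
  rfl

/-- The values of `D_U - D_0`. -/
lemma eval_zeta (n : ℕ) (hn : 1 ≤ n) (l : MvPolynomial (Fin ((2 + n) / 2)) ℂ) :
    (∑ k : Fin ((2 + n) / 2), C ((-1) ^ (k.val + 1)) * pPrime (2 + n) k * l ^ (2 + n - 2 * (k.val + 1)))
      = (tm (fun j => l - ext (2 + n) X j) (2 + n)).trace - (tm (fun _ => l) (2 + n)).trace := by
  have h := congrArg (Polynomial.eval l)
    (zeta_eq n hn (RingHom.id (MvPolynomial (Fin ((2 + n) / 2)) ℂ)))
  have a1 := D_eq_trace n hn (ext (2 + n) (X : Fin ((2 + n) / 2) → MvPolynomial (Fin ((2 + n) / 2)) ℂ))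
  have a2 := D_eq_trace n hn (fun _ => (0 : MvPolynomial (Fin ((2 + n) / 2)) ℂ))
  rw [ext_fun] at a1
  have a3 : (D (0 : Fin (2 + n) → MvPolynomial (Fin ((2 + n) / 2)) ℂ))
      = D (fun _ : Fin (2 + n) => (0 : MvPolynomial (Fin ((2 + n) / 2)) ℂ)) := rfl
  simp only [RingHom.id_apply] at h
  rw [a3] at h
  have a1' : D (antisymmetric (2 + n) fun j => (X j : MvPolynomial (Fin ((2 + n) / 2)) ℂ)) = _ := a1
  rw [a1', a2] at h
  simp only [Polynomial.eval_sub, Polynomial.eval_mul, Polynomial.eval_pow, Polynomial.eval_neg,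
    Polynomial.eval_one, eval_trace, Polynomial.eval_finsetSum, Polynomial.eval_C,
    Polynomial.eval_X, sub_zero] at h
  have h5 : ((-1 : MvPolynomial (Fin ((2 + n) / 2)) ℂ) ^ (2 + n)) * (-1) ^ (2 + n) = 1 := by
    rw [← mul_pow]; simp
  have h6 : (∑ k : Fin ((2 + n) / 2),
      C ((-1) ^ (k.val + 1)) * pPrime (2 + n) k * l ^ (2 + n - 2 * (k.val + 1)))
      = (-1) ^ (2 + n) * ∑ k : Fin ((2 + n) / 2), (-1) ^ (2 + n + (k.val + 1)) * pPrime (2 + n) k *
        l ^ (2 + n - 2 * (k.val + 1)) := by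
    rw [Finset.mul_sum]
    apply Finset.sum_congr rfl
    intro k _
    rw [pow_add (-1 : MvPolynomial (Fin ((2 + n) / 2)) ℂ) (2 + n)]
    simp only [map_pow, map_neg, map_one]
    linear_combination -((-1) ^ (k.val + 1) * pPrime (2 + n) k * l ^ (2 + n - 2 * (k.val + 1))) * h5
  rw [h6, ← h]
  linear_combination ((tm (fun j => l - ext (2 + n) X j) (2 + n)).trace
    - (tm (fun _ => l) (2 + n)).trace) * h5

/-- The integrality relation for `X_j`. -/
lemma integrality (n : ℕ) (hn : 1 ≤ n) (j : Fin ((2 + n) / 2)) :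
    ∃ c : Fin ((2 + n) / 2) → ℂ,
      (X j ^ (2 + n) - ∑ k, C (c k) * pPrime (2 + n) k * X j ^ (2 + n - 2 * (k.val + 1)) :
        MvPolynomial (Fin ((2 + n) / 2)) ℂ).totalDegree < 2 + n := by
  refine ⟨fun k => - (-1) ^ (k.val + 1), ?_⟩
  have h := eval_zeta n hn (X j)
  have d1 := deg_trace (fun i => X j - ext (2 + n) X i : ℕ → MvPolynomial (Fin ((2 + n) / 2)) ℂ) (by
    intro i
    refine (totalDegree_sub _ _).trans (max_le (by rw [totalDegree_X]) ?_)
    unfold ext antisymmetric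
    split_ifs
    · rw [totalDegree_X]
    · rw [totalDegree_neg, totalDegree_X]
    · simp
    · simp) n
  have d2 := deg_trace (fun _ => X j : ℕ → MvPolynomial (Fin ((2 + n) / 2)) ℂ) (by
    intro i; rw [totalDegree_X]) n
  have hz : ∏ i ∈ Finset.range (2 + n), (X j - ext (2 + n) X i : MvPolynomial (Fin ((2 + n) / 2)) ℂ)
      = 0 := by
    have hj := j.2
    apply Finset.prod_eq_zero (i := j.val) (Finset.mem_range.mpr (by omega))
    unfold ext antisymmetric
    rw [dif_pos (by omega), dif_pos hj]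
    simp
  rw [hz, sub_zero] at d1
  rw [Finset.prod_const, Finset.card_range] at d2
  have e : (X j ^ (2 + n) - ∑ k : Fin ((2 + n) / 2), C (- (-1) ^ (k.val + 1)) * pPrime (2 + n) k *
      X j ^ (2 + n - 2 * (k.val + 1)) : MvPolynomial (Fin ((2 + n) / 2)) ℂ)
      = (tm (fun i => X j - ext (2 + n) X i) (2 + n)).trace
        - ((tm (fun _ => X j) (2 + n)).trace - X j ^ (2 + n)) := by
    have : ∑ k : Fin ((2 + n) / 2), C (- (-1) ^ (k.val + 1)) * pPrime (2 + n) k *
        (X j : MvPolynomial (Fin ((2 + n) / 2)) ℂ) ^ (2 + n - 2 * (k.val + 1))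
        = - ∑ k : Fin ((2 + n) / 2), C ((-1) ^ (k.val + 1)) * pPrime (2 + n) k *
        (X j : MvPolynomial (Fin ((2 + n) / 2)) ℂ) ^ (2 + n - 2 * (k.val + 1)) := by
      rw [← Finset.sum_neg_distrib]
      apply Finset.sum_congr rfl
      intro k _
      rw [C_neg]; ring
    rw [this, h]
    ring
  rw [e]
  have := (totalDegree_sub (tm (fun i => X j - ext (2 + n) X i) (2 + n)).trace
    ((tm (fun _ => X j) (2 + n)).trace - X j ^ (2 + n))).trans (max_le d1 d2)
  omega

end Pool.Agent.R991.Flo
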