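import Mathlib

/-!
# The determinant of a periodic Jacobi matrix and the trace of the transfer matrix
-/

set_option autoImplicit false

namespace Pool.Agent.R991.Flo

variable {R : Type*} [CommRing R]

/-- The one-step transfer matrix. -/
def T (x : R) : Matrix (Fin 2) (Fin 2) R := !![x, -1; 1, 0]

/-- The transfer matrix over `n` steps, `T (x (n-1)) * ... * T (x 0)`. -/
def tm (x : ℕ → R) : ℕ → Matrix (Fin 2) (Fin 2) R
  | 0 => 1
  | n + 1 => T (x n) * tm x n

lemma det_T (x : R) : (T x).det = 1 := by simp [T, Matrix.det_fin_two_of]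

lemma det_tm (x : ℕ → R) (n : ℕ) : (tm x n).det = 1 := by
  induction n with
  | zero => simp [tm]
  | succ n ih => rw [tm, Matrix.det_mul, ih, det_T, one_mul]

/-- The periodic Jacobi matrix with diagonal `x`, off-diagonal entries `-1` and corners `-w`, `-z`. -/
def perJ (q : ℕ) (z w : R) (x : ℕ → R) : Matrix (Fin q) (Fin q) R :=
  Matrix.of fun i j => (if i = j then x i.val else 0) - (if i.val + 1 = j.val then 1 else 0)
    - (if j.val + 1 = i.val then 1 else 0) - (if i.val = 0 ∧ j.val + 1 = q then w else 0)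
    - (if j.val = 0 ∧ i.val + 1 = q then z else 0)

/-- Basis of solutions. -/
def h (x : ℕ → R) (k : ℕ) : ℕ → R
  | 0 => if k = 0 then 1 else 0
  | 1 => if k = 1 then 1 else 0
  | n + 2 => x (n + 1) * h x k (n + 1) - h x k n + (if k = n + 2 then 1 else 0)

lemma h_lt (x : ℕ → R) (k : ℕ) (n : ℕ) (hn : n < k) : h x k n = 0 := by
  induction n using Nat.strong_induction_on with
  | _ n ih =>
    match n with
    | 0 => simp [h]; omega
    | 1 => simp [h]; omega
    | n + 2 =>
      rw [h, ih (n + 1) (by omega) (by omega), ih n (by omega) (by omega), if_neg (by omega)]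
      ring

lemma h_self (x : ℕ → R) (k : ℕ) : h x k k = 1 := by
  match k with
  | 0 => simp [h]
  | 1 => simp [h]
  | k + 2 =>
    rw [h, h_lt x (k + 2) (k + 1) (by omega), h_lt x (k + 2) k (by omega)]
    simp

lemma tm_h0 (x : ℕ → R) (n : ℕ) :
    h x 0 (n + 1) = tm x (n + 1) 0 0 + tm x (n + 1) 0 1 * x 0 ∧
      h x 0 n = tm x (n + 1) 1 0 + tm x (n + 1) 1 1 * x 0 := by
  induction n with
  | zero => simp [h, tm, T, Matrix.mul_apply, Fin.sum_univ_two]
  | succ n ih =>
    have e : tm x (n + 2) = T (x (n + 1)) * tm x (n + 1) := rfl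
    obtain ⟨i1, i2⟩ := ih
    have hh : h x 0 (n + 2) = x (n + 1) * h x 0 (n + 1) - h x 0 n := by
      rw [h]; simp
    constructor
    · rw [hh, i1, i2, e]
      simp [T, Matrix.mul_apply, Fin.sum_univ_two]
      ring
    · rw [i1, e]
      simp [T, Matrix.mul_apply, Fin.sum_univ_two]

lemma tm_h1 (x : ℕ → R) (n : ℕ) :
    h x 1 (n + 1) = - tm x (n + 1) 0 1 ∧ h x 1 n = - tm x (n + 1) 1 1 := by
  induction n with
  | zero => simp [h, tm, T, Matrix.mul_apply, Fin.sum_univ_two]
  | succ n ih =>
    have e : tm x (n + 2) = T (x (n + 1)) * tm x (n + 1) := rfl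
    obtain ⟨i1, i2⟩ := ih
    have hh : h x 1 (n + 2) = x (n + 1) * h x 1 (n + 1) - h x 1 n := by
      rw [h]; simp
    constructor
    · rw [hh, i1, i2, e]
      simp [T, Matrix.mul_apply, Fin.sum_univ_two]
      ring
    · rw [i1, e]
      simp [T, Matrix.mul_apply, Fin.sum_univ_two]

/-- The matrix of the basis of solutions. -/
def B (x : ℕ → R) (q : ℕ) : Matrix (Fin q) (Fin q) R := Matrix.of fun i k => h x k.val i.val

lemma det_B (x : ℕ → R) (q : ℕ) : (B x q).det = 1 := by
  rw [Matrix.det_of_isLowerTriangular]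
  · simp [B, h_self]
  · intro i j hij
    exact h_lt x _ _ hij

lemma sum_next {q : ℕ} (f : ℕ → R) (i : Fin q) :
    ∑ j : Fin q, (if i.val + 1 = j.val then (1 : R) else 0) * f j.val
      = if i.val + 1 < q then f (i.val + 1) else 0 := by
  split_ifs with hi
  · rw [Finset.sum_eq_single ⟨i.val + 1, hi⟩]
    · simp
    · intro j _ hj
      rw [if_neg, zero_mul]
      intro h'
      exact hj (Fin.ext h'.symm)
    · simp
  · apply Finset.sum_eq_zero
    intro j _
    rw [if_neg (by have := j.2; omega), zero_mul]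

lemma sum_prev {q : ℕ} (f : ℕ → R) (i : Fin q) :
    ∑ j : Fin q, (if j.val + 1 = i.val then (1 : R) else 0) * f j.val
      = if 0 < i.val then f (i.val - 1) else 0 := by
  split_ifs with hi
  · rw [Finset.sum_eq_single ⟨i.val - 1, by omega⟩]
    · simp; omega
    · intro j _ hj
      rw [if_neg, zero_mul]
      intro h'
      exact hj (Fin.ext (by simp; omega))
    · simp
  · apply Finset.sum_eq_zero
    intro j _
    rw [if_neg (by have := j.2; omega), zero_mul]

lemma sum_c1 {q : ℕ} (w : R) (f : ℕ → R) (i : Fin q) :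
    ∑ j : Fin q, (if i.val = 0 ∧ j.val + 1 = q then w else 0) * f j.val
      = if i.val = 0 then w * f (q - 1) else 0 := by
  have := i.2
  split_ifs with hi
  · rw [Finset.sum_eq_single ⟨q - 1, by omega⟩]
    · simp only [hi]
      rw [if_pos (by simp; omega)]
    · intro j _ hj
      rw [if_neg, zero_mul]
      intro h'
      exact hj (Fin.ext (by simp; omega))
    · simp
  · apply Finset.sum_eq_zero
    intro j _
    rw [if_neg (by tauto), zero_mul]

lemma sum_c2 {q : ℕ} (z : R) (f : ℕ → R) (i : Fin q) :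
    ∑ j : Fin q, (if j.val = 0 ∧ i.val + 1 = q then z else 0) * f j.val
      = if i.val + 1 = q then z * f 0 else 0 := by
  have := i.2
  by_cases hi : i.val + 1 = q
  · rw [if_pos hi, Finset.sum_eq_single ⟨0, by omega⟩]
    · rw [if_pos ⟨rfl, hi⟩]
    · intro j _ hj
      rw [if_neg, zero_mul]
      intro h'
      exact hj (Fin.ext (by simp; omega))
    · simp
  · rw [if_neg hi]
    apply Finset.sum_eq_zero
    intro j _
    rw [if_neg (by tauto), zero_mul]

lemma perJ_mul {q : ℕ} (z w : R) (x : ℕ → R) (f : ℕ → R) (i : Fin q) :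
    ∑ j : Fin q, perJ q z w x i j * f j.val =
      x i.val * f i.val - (if i.val + 1 < q then f (i.val + 1) else 0)
        - (if 0 < i.val then f (i.val - 1) else 0) - (if i.val = 0 then w * f (q - 1) else 0)
        - (if i.val + 1 = q then z * f 0 else 0) := by
  simp only [perJ, Matrix.of_apply, sub_mul, Finset.sum_sub_distrib]
  rw [sum_next, sum_prev, sum_c1, sum_c2]
  simp

/-- The entries of `perJ * B`. -/
def Cf (q : ℕ) (z w : R) (x : ℕ → R) (i k : ℕ) : R :=
  x i * h x k i - (if i + 1 < q then h x k (i + 1) else 0)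
        - (if 0 < i then h x k (i - 1) else 0)
        - (if i = 0 then w * h x k (q - 1) else 0)
        - (if i + 1 = q then z * h x k 0 else 0)

lemma rot_symm_zero (m : ℕ) : ((finRotate (m + 1)).symm 0).val = m := by
  have : (finRotate (m + 1)).symm 0 = Fin.last m := by
    rw [Equiv.symm_apply_eq, finRotate_last]
  rw [this]; rfl

lemma rot_symm_succ (m : ℕ) (i : Fin (m + 1)) (hi : 0 < i.val) :
    ((finRotate (m + 1)).symm i).val = i.val - 1 := by
  have h1 := i.2
  have : (finRotate (m + 1)).symm i = ⟨i.val - 1, by omega⟩ := by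
    rw [Equiv.symm_apply_eq]
    apply Fin.ext
    rw [finRotate_of_lt (by omega)]
    simp; omega
  rw [this]

lemma hmid (x : ℕ → R) (i : ℕ) (hi : 0 < i) (k : ℕ) :
    x i * h x k i - h x k (i + 1) - h x k (i - 1) = - (if k = i + 1 then 1 else 0) := by
  obtain ⟨j, rfl⟩ : ∃ j, i = j + 1 := ⟨i - 1, by omega⟩
  rw [show j + 1 + 1 = j + 2 from rfl, h]
  simp only [Nat.add_sub_cancel]
  ring

/-- The determinant of the periodic Jacobi matrix. -/
theorem det_perJ (n : ℕ) (z w : R) (hzw : z * w = 1) (x : ℕ → R) :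
    (perJ (2 + n) z w x).det = (tm x (2 + n)).trace - z - w := by
  obtain ⟨q, hq⟩ : ∃ q, q = 2 + n := ⟨_, rfl⟩
  obtain ⟨m, hm⟩ : ∃ m, q = m + 1 := ⟨1 + n, by omega⟩
  rw [← hq]
  set A := perJ q z w x with hA
  set Cm := A * B x q with hC
  have hCe : ∀ i k : Fin q, Cm i k = Cf q z w x i.val k.val := by
    intro i k
    rw [hC, Matrix.mul_apply, Cf, ← perJ_mul z w x (h x k.val) i]
    rfl
  have hdet : A.det = Cm.det := by rw [hC, Matrix.det_mul, det_B, mul_one]
  -- rotate the rows
  have hperm : ∃ σ : Equiv.Perm (Fin q), (∀ i : Fin q, i.val = 0 → (σ i).val = q - 1) ∧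
      (∀ i : Fin q, 0 < i.val → (σ i).val = i.val - 1) ∧
      (Cm.submatrix σ id).det = ((-1 : R) ^ (n + 1)) * Cm.det := by
    clear_value Cm
    clear hC hCe hdet hA A
    subst hm
    refine ⟨(finRotate (m + 1)).symm, ?_, ?_, ?_⟩
    · intro i hi
      have : i = 0 := Fin.ext hi
      rw [this, rot_symm_zero]; rfl
    · intro i hi
      exact rot_symm_succ m i hi
    · rw [Matrix.det_permute]
      have e1 : Equiv.Perm.sign ((finRotate (m + 1)).symm) = (-1) ^ m := by
        have : (finRotate (m + 1)).symm = (finRotate (m + 1))⁻¹ := rfl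
        rw [this, Equiv.Perm.sign_inv, sign_finRotate]
        simp
      rw [e1]
      have : m = n + 1 := by omega
      subst this
      push_cast
      rfl
  obtain ⟨σ, hσ0, hσ, hperm⟩ := hperm
  -- the block structure
  obtain ⟨e, he1, he2⟩ : ∃ e : Fin 2 ⊕ Fin n ≃ Fin q, (∀ i, (e (Sum.inl i)).val = i.val) ∧
      ∀ i, (e (Sum.inr i)).val = 2 + i.val := by
    subst hq
    refine ⟨finSumFinEquiv, ?_, ?_⟩
    · intro i; rw [finSumFinEquiv_apply_left]; rfl
    · intro i; rw [finSumFinEquiv_apply_right]; rfl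
  have hlast : ∀ k : ℕ, k < q → h x k q = x (q - 1) * h x k (q - 1) - h x k (q - 2) := by
    intro k hk
    have : q = n + 2 := by omega
    rw [this, h, if_neg (by omega)]
    simp
  have r0 : ∀ k, k < q → Cf q z w x (q - 1) k = h x k q - z * h x k 0 := by
    intro k hk
    rw [Cf, if_neg (by omega), if_pos (by omega), if_neg (by omega), if_pos (by omega), hlast k hk,
      show q - 1 - 1 = q - 2 by omega]
    ring
  have r1 : ∀ k, Cf q z w x 0 k = x 0 * h x k 0 - h x k 1 - w * h x k (q - 1) := by
    intro k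
    rw [Cf, if_pos (by omega), if_neg (by omega), if_pos rfl, if_neg (by omega)]
    ring
  have r2 : ∀ i k, 0 < i → i + 1 < q → Cf q z w x i k = - (if k = i + 1 then 1 else 0) := by
    intro i k hi hi2
    rw [Cf, if_pos hi2, if_pos hi, if_neg (by omega), if_neg (by omega), ← hmid x i hi k]
    ring
  have hblock : (Cm.submatrix σ id).submatrix e e =
      Matrix.fromBlocks
        (!![h x 0 q - z, h x 1 q; x 0 - w * h x 0 (q - 1), -1 - w * h x 1 (q - 1)])
        (Matrix.of fun i j => (Cm.submatrix σ id) (e (Sum.inl i)) (e (Sum.inr j)))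
        0 (-1) := by
    ext i j
    rcases i with i | i <;> rcases j with j | j
    · -- top-left block
      rw [Matrix.fromBlocks_apply₁₁]
      simp only [Matrix.submatrix_apply, id]
      rw [hCe, he1]
      fin_cases i
      · rw [hσ0 _ (by rw [he1]), r0 _ (by have := j.2; omega)]
        fin_cases j
        · simp [h]
        · simp [h]
      · rw [hσ _ (by rw [he1]; simp), he1]
        simp only [Nat.reduceAdd, Fin.mk_one, Fin.isValue, Fin.coe_ofNat_eq_mod, Nat.mod_succ,
          Nat.sub_self]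
        rw [r1]
        fin_cases j
        · simp [h]
        · simp [h]
    · rw [Matrix.fromBlocks_apply₁₂]
      rfl
    · rw [Matrix.fromBlocks_apply₂₁]
      simp only [Matrix.submatrix_apply, id]
      have hi2 := i.2
      have hj2 := j.2
      rw [hCe, he1, hσ _ (by rw [he2]; omega), he2, r2 _ _ (by omega) (by omega),
        if_neg (by omega)]
      simp
    · rw [Matrix.fromBlocks_apply₂₂]
      simp only [Matrix.submatrix_apply, id]
      have hi2 := i.2
      have hj2 := j.2
      rw [hCe, he2, hσ _ (by rw [he2]; omega), he2, r2 _ _ (by omega) (by omega),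
        Matrix.neg_apply, Matrix.one_apply]
      congr 1
      by_cases hij : i = j
      · subst hij; simp; omega
      · rw [if_neg hij, if_neg]
        intro h'
        exact hij (Fin.ext (by omega))
  have hd2 : (Cm.submatrix σ id).det = (-1) ^ n *
      (-((tm x q).trace - z - w)) := by
    rw [← Matrix.det_submatrix_equiv_self e, hblock, Matrix.det_fromBlocks_zero₂₁,
      Matrix.det_neg, Matrix.det_one, Fintype.card_fin, mul_one, mul_comm]
    congr 1
    rw [Matrix.det_fin_two_of]
    obtain ⟨a1, a2⟩ := tm_h0 x m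
    obtain ⟨b1, b2⟩ := tm_h1 x m
    rw [← hm] at a1 a2 b1 b2
    have hm' : q - 1 = m := by omega
    have hd := det_tm x q
    rw [Matrix.det_fin_two] at hd
    rw [hm', a1, a2, b1, b2, Matrix.trace_fin_two]
    linear_combination w * hd - (tm x q 1 1) * hzw
  have : Cm.det = (tm x q).trace - z - w := by
    have h3 : ((-1 : R) ^ (n + 1)) * Cm.det = (-1) ^ n * (-((tm x q).trace - z - w)) := by
      rw [← hperm, hd2]
    have h4 : ((-1 : R) ^ (n + 1)) * ((-1 : R) ^ (n + 1)) = 1 := by
      rw [← mul_pow]; simp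
    calc Cm.det = ((-1 : R) ^ (n + 1)) * (((-1 : R) ^ (n + 1)) * Cm.det) := by
          rw [← mul_assoc, h4, one_mul]
      _ = ((-1 : R) ^ (n + 1)) * ((-1) ^ n * (-((tm x q).trace - z - w))) := by rw [h3]
      _ = (((-1 : R) ^ (n + 1)) * ((-1 : R) ^ (n + 1))) * ((tm x q).trace - z - w) := by
          rw [pow_succ]; ring
      _ = _ := by rw [h4, one_mul]
  rw [hdet, this]

end Pool.Agent.R991.Flo
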