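import Pool.Agent.R991.FloRoots

/-!
# The existence of a nonzero antisymmetric potential isospectral to zero
-/

set_option autoImplicit false

namespace Pool.Agent.R991.Flo

open MvPolynomial

lemma ext_linear {R : Type*} [CommRing R] [Algebra ℂ R] (q : ℕ) (u : Fin (q / 2) → R) (i : ℕ) :
    ext q u i = ∑ j, algebraMap ℂ R (ext q (Pi.single j (1 : ℂ)) i) * u j := by
  unfold ext antisymmetric
  split_ifs with h1 h2 h3
  · rw [Finset.sum_eq_single ⟨i, h2⟩]
    · simp
    · intro b _ hb
      simp [Pi.single_apply, hb.symm]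
    · simp
  · rw [Finset.sum_eq_single ⟨q - 1 - i, h3⟩]
    · simp
    · intro b _ hb
      simp [Pi.single_apply, hb.symm]
    · simp
  · simp
  · simp

lemma ext_mem (q : ℕ) (i : ℕ) :
    ext q (X : Fin (q / 2) → MvPolynomial (Fin (q / 2)) ℂ) i ∈ idealOfVars (Fin (q / 2)) ℂ := by
  unfold ext antisymmetric
  split_ifs
  · exact Ideal.subset_span ⟨_, rfl⟩
  · exact neg_mem (Ideal.subset_span ⟨_, rfl⟩)
  · exact Ideal.zero_mem _
  · exact Ideal.zero_mem _

/-- The point `ω` of the gap number `k`. -/
noncomputable def om (q : ℕ) (k : ℕ) : ℂ := Complex.exp (Real.pi * Complex.I / q) ^ k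

lemma om_ne (q k : ℕ) : om q k ≠ 0 := pow_ne_zero _ (Complex.exp_ne_zero _)

lemma om_pow (q k : ℕ) (hq : q ≠ 0) : om q k ^ q = (-1) ^ k := by
  rw [om, ← pow_mul, mul_comm k q, pow_mul, ← Complex.exp_nat_mul]
  have : (q : ℂ) * (Real.pi * Complex.I / q) = Real.pi * Complex.I := by
    have : (q : ℂ) ≠ 0 := by exact_mod_cast hq
    field_simp
  rw [this, Complex.exp_pi_mul_I]

lemma om_sq (q k : ℕ) : om q k ^ 2 = Complex.exp (2 * Real.pi * Complex.I / q) ^ k := by
  rw [om, ← pow_mul, mul_comm k 2, pow_mul, ← Complex.exp_nat_mul]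
  congr 2
  push_cast
  ring

lemma om_sq_ne (q k : ℕ) (hk : 1 ≤ k) (hkq : k < q) : om q k ^ 2 ≠ 1 := by
  rw [om_sq]
  exact (Complex.isPrimitiveRoot_exp q (by omega)).pow_ne_one_of_pos_of_lt (by omega) hkq

lemma sq_one (k : ℕ) : ((-1 : ℂ) ^ k) * (-1) ^ k = 1 := by
  rw [← mul_pow]; simp

/-- The gap functionals determine the potential. -/
lemma sa_inj (q : ℕ) (hq : 3 ≤ q) (u : Fin (q / 2) → ℂ)
    (h : ∀ k : Fin (q / 2), sa (om q (k.val + 1) + (om q (k.val + 1))⁻¹) (ext q u) q = 0) :
    u = 0 := by
  have hV := ext_anti q u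
  have hroot : ∀ k : ℕ, k < q →
      ∑ i ∈ Finset.range q, ext q u i * (Complex.exp (2 * Real.pi * Complex.I / q) ^ k) ^ i = 0 := by
    intro k hk
    rcases Nat.eq_zero_or_pos k with h0 | h0
    · subst h0
      have h := anti_sum q (ext q u) (fun _ => 1) hV
      simp only [mul_one] at h
      simp only [pow_zero, one_pow, mul_one]
      exact self_eq_neg.mp h
    · by_cases hk2 : k ≤ q / 2
      · have h1 := h ⟨k - 1, by omega⟩
        simp only [Nat.sub_add_cancel h0] at h1
        have := (dft_zero (om_ne q k) (om_pow q k (by omega)) (sq_one k)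
          (om_sq_ne q k h0 hk) (ext q u) hV h1).1
        rwa [om_sq] at this
      · push Not at hk2
        have h1 := h ⟨q - k - 1, by omega⟩
        have e : q - k - 1 + 1 = q - k := by omega
        simp only [e] at h1
        have := (dft_zero (om_ne q (q - k)) (om_pow q (q - k) (by omega)) (sq_one (q - k))
          (om_sq_ne q (q - k) (by omega) (by omega)) (ext q u) hV h1).2
        rw [inv_pow, om_sq] at this
        have e2 : (Complex.exp (2 * Real.pi * Complex.I / q) ^ (q - k))⁻¹
            = Complex.exp (2 * Real.pi * Complex.I / q) ^ k := by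
          apply inv_eq_of_mul_eq_one_right
          rw [← pow_add, Nat.sub_add_cancel hk.le]
          exact (Complex.isPrimitiveRoot_exp q (by omega)).pow_eq_one
        rwa [e2] at this
  have hp : (∑ i ∈ Finset.range q, Polynomial.C (ext q u i) * Polynomial.X ^ i : Polynomial ℂ) = 0 := by
    apply Polynomial.eq_zero_of_natDegree_lt_card_of_eval_eq_zero _
      (f := fun k : Fin q => Complex.exp (2 * Real.pi * Complex.I / q) ^ k.val)
    · intro k k' hkk
      exact Fin.ext ((Complex.isPrimitiveRoot_exp q (by omega)).pow_inj k.2 k'.2 hkk)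
    · intro k
      rw [Polynomial.eval_finsetSum]
      simpa using hroot k.val k.2
    · rw [Fintype.card_fin]
      apply lt_of_le_of_lt (Polynomial.natDegree_sum_le_of_forall_le (n := q - 1) _ _ ?_) (by omega)
      intro i hi
      have := Finset.mem_range.mp hi
      exact (Polynomial.natDegree_C_mul_X_pow_le _ _).trans (by omega)
  funext j
  have hj := j.2
  have h1 := congrArg (fun p => Polynomial.coeff p j.val) hp
  simp only [Polynomial.finsetSum_coeff, Polynomial.coeff_C_mul, Polynomial.coeff_X_pow,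
    Polynomial.coeff_zero] at h1
  rw [Finset.sum_eq_single j.val] at h1
  · simp only [if_true, mul_one] at h1
    unfold ext antisymmetric at h1
    rw [dif_pos (by omega), dif_pos hj] at h1
    simpa using h1
  · intro b _ hb
    rw [if_neg hb.symm, mul_zero]
  · intro h
    exact absurd (Finset.mem_range.mpr (by omega)) h

theorem exists_root (n : ℕ) (hn : 2 ≤ n) :
    ∃ u : Fin ((2 + n) / 2) → ℂ, u ≠ 0 ∧ ∀ k, eval u (pPrime (2 + n) k) = 0 := by
  set q := 2 + n with hqn
  have hq : 4 ≤ q := by omega
  set U : ℕ → MvPolynomial (Fin (q / 2)) ℂ := ext q X with hU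
  set l : Fin (q / 2) → ℂ := fun ν => om q (ν.val + 1) + (om q (ν.val + 1))⁻¹ with hl
  set w : Fin (q / 2) → MvPolynomial (Fin (q / 2)) ℂ := fun ν => sa (C (l ν)) U q with hw
  have hν : ∀ ν : Fin (q / 2), ν.val + 1 < q := by
    intro ν
    have := ν.2
    omega
  apply Alg.exists_zero (q := q) (fun k : Fin (q / 2) => 2 * (k.val + 1)) (fun k => by omega)
    (fun k => by have := k.2; omega) _ (pPrime q) _ _ w
  · -- `w ∈ 𝔪`
    intro ν
    exact Ideal.sum_mem _ fun i _ => Ideal.mul_mem_right _ _ (ext_mem q i)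
  · -- `X_j` is in the span of `w`
    let M : Matrix (Fin (q / 2)) (Fin (q / 2)) ℂ :=
      Matrix.of fun ν j => sa (l ν) (ext q (Pi.single j (1 : ℂ))) q
    have hMw : ∀ ν, w ν = ∑ j, C (M ν j) * X j := by
      intro ν
      simp only [hw, M, sa, Matrix.of_apply, map_sum, Finset.sum_mul]
      rw [Finset.sum_comm]
      apply Finset.sum_congr rfl
      intro i _
      rw [hU, ext_linear q X i, Finset.sum_mul]
      apply Finset.sum_congr rfl
      intro j _
      rw [← r_map C, map_mul, map_pow]
      simp only [algebraMap_eq]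
      ring
    have hMu : ∀ u : Fin (q / 2) → ℂ, ∀ ν, M.mulVec u ν = sa (l ν) (ext q u) q := by
      intro u ν
      simp only [Matrix.mulVec, dotProduct, M, sa, Matrix.of_apply, Finset.sum_mul]
      rw [Finset.sum_comm]
      apply Finset.sum_congr rfl
      intro i _
      rw [ext_linear q u i, Finset.sum_mul]
      apply Finset.sum_congr rfl
      intro j _
      simp only [Algebra.algebraMap_self, RingHom.id_apply]
      ring
    have hinj : Function.Injective M.mulVec := by
      intro u u' h
      have h0 : u - u' = 0 := by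
        apply sa_inj q (by omega)
        intro k
        have e := hMu (u - u') k
        rw [Matrix.mulVec_sub, h, sub_self] at e
        exact e.symm
      exact sub_eq_zero.mp h0
    have hunit : IsUnit M := Matrix.mulVec_injective_iff_isUnit.mp hinj
    have hdet : IsUnit M.det := (Matrix.isUnit_iff_isUnit_det M).mp hunit
    rw [idealOfVars, Ideal.span_le]
    rintro _ ⟨j, rfl⟩
    have e : (X j : MvPolynomial (Fin (q / 2)) ℂ) = ∑ ν, C (M⁻¹ j ν) * w ν := by
      have h1 : ∀ j', ∑ ν, M⁻¹ j ν * M ν j' = if j = j' then 1 else 0 := by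
        intro j'
        have := congrFun (congrFun (Matrix.nonsing_inv_mul M hdet) j) j'
        rwa [Matrix.mul_apply, Matrix.one_apply] at this
      simp only [hMw, Finset.mul_sum]
      rw [Finset.sum_comm]
      have h3 : ∀ j', ∑ ν, C (M⁻¹ j ν) * (C (M ν j') * (X j' : MvPolynomial (Fin (q / 2)) ℂ))
          = C (if j = j' then 1 else 0) * X j' := by
        intro j'
        rw [← h1 j', map_sum, Finset.sum_mul]
        apply Finset.sum_congr rfl
        intro ν _
        rw [C_mul, mul_assoc]
      simp only [h3]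
      rw [Finset.sum_eq_single j]
      · simp
      · intro b _ hb
        rw [if_neg hb.symm]; simp
      · simp
    rw [SetLike.mem_coe, e]
    exact Ideal.sum_mem _ fun ν _ => Ideal.mul_mem_left _ _ (Ideal.subset_span ⟨ν, rfl⟩)
  · -- the second variation
    intro ν
    have hω := om_ne q (ν.val + 1)
    have hωc := om_pow q (ν.val + 1) (by omega)
    have hcc := sq_one (ν.val + 1)
    have h2 := om_sq_ne q (ν.val + 1) (by omega) (hν ν)
    set c : ℂ := (-1) ^ (ν.val + 1) with hc
    have hT := T_pow_q hω hωc hcc h2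
    have hso := second_order q U (fun i => ext_mem q i) (l ν) c hcc hT
      (sb_zero hω hωc hcc h2 C U (ext_anti q X)) (sd_eq hω hωc hcc h2 C U (ext_anti q X))
    have hT0 : (tm (fun _ => (C (l ν) : MvPolynomial (Fin (q / 2)) ℂ)) q).trace = C (2 * c) := by
      have e1 := tm_map (C : ℂ →+* MvPolynomial (Fin (q / 2)) ℂ) (fun _ => l ν) q
      rw [← e1, tm_const, hT, Matrix.trace_fin_two]
      simp only [Matrix.map_apply, Matrix.smul_apply, Matrix.one_apply_eq, smul_eq_mul, mul_one]
      rw [two_mul, C_add]
    refine ⟨C c * ∑ k : Fin (q / 2), C ((-1) ^ (k.val + 1)) * pPrime q k *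
      C (l ν) ^ (q - 2 * (k.val + 1)), ?_, ?_⟩
    · apply Ideal.mul_mem_left
      apply Ideal.sum_mem
      intro k _
      apply Ideal.mul_mem_right
      apply Ideal.mul_mem_left
      exact Ideal.subset_span ⟨k, rfl⟩
    · have e1 := eval_zeta n (by omega) (C (l ν))
      rw [← hqn] at e1
      rw [e1, hT0]
      have hCc : (C c : MvPolynomial (Fin (q / 2)) ℂ) * C c = 1 := by
        rw [← C_mul, hcc, C_1]
      have e2 : C c * ((tm (fun j => C (l ν) - ext q X j) q).trace - C (2 * c)) - w ν ^ 2
          = C c * ((tm (fun i => C (l ν) - U i) q).trace - C (2 * c) - C c * sa (C (l ν)) U q ^ 2) := by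
        rw [← hU]
        linear_combination (sa (C (l ν)) U q ^ 2) * hCc
      rw [e2]
      exact Ideal.mul_mem_left _ _ hso
  · -- the product of the degrees
    have h1 : ∏ k : Fin (q / 2), 2 * (k.val + 1) = 2 ^ (q / 2) * (q / 2).factorial := by
      rw [Finset.prod_mul_distrib, Finset.prod_const, Finset.card_univ, Fintype.card_fin]
      congr 1
      rw [← Finset.prod_range_add_one_eq_factorial, Finset.prod_range]
    rw [h1]
    have h3 : 2 ≤ (q / 2).factorial := by
      calc 2 = Nat.factorial 2 := rfl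
        _ ≤ _ := Nat.factorial_le (by omega)
    calc 2 * 2 ^ (q / 2) = 2 ^ (q / 2) * 2 := by ring
      _ ≤ _ := Nat.mul_le_mul_left _ h3
  · -- no constant terms
    intro k
    rw [map_pPrime]
    have : (fun j => constantCoeff (X j : MvPolynomial (Fin (q / 2)) ℂ)) = 0 := by
      funext j; simp
    rw [this]
    have h0 : antisymmetric q (0 : Fin (q / 2) → ℂ) = 0 := by
      funext j
      simp [antisymmetric]
    rw [h0]
    simp
  · intro j
    exact integrality n (by omega) j

/-- The antisymmetric potentials on the common zero set are isospectral to `0`. -/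
lemma D_of_root (n : ℕ) (hn : 1 ≤ n) (u : Fin ((2 + n) / 2) → ℂ)
    (hu : ∀ k, eval u (pPrime (2 + n) k) = 0) :
    D (antisymmetric (2 + n) u) = D (0 : Fin (2 + n) → ℂ) := by
  have h := zeta_eq n hn (eval u)
  simp only [hu, mul_zero, map_zero, zero_mul, Finset.sum_const_zero, eval_X] at h
  exact sub_eq_zero.mp h

end Pool.Agent.R991.Flo
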