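import Pool.Agent.R991.FloDeg

/-!
# The second variation at the closed gaps
-/

set_option autoImplicit false

namespace Pool.Agent.R991.Flo

open MvPolynomial

section
variable {R : Type*} [CommRing R]

/-- `r_{n+1} = U_{n-1}(l/2)` -/
def r (l : R) : ℕ → R
  | 0 => -1
  | 1 => 0
  | n + 2 => l * r l (n + 1) - r l n

lemma T_pow (l : R) (n : ℕ) : T l ^ n = !![r l (n + 2), - r l (n + 1); r l (n + 1), - r l n] := by
  induction n with
  | zero =>
    ext i j
    fin_cases i <;> fin_cases j <;> simp [r]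
  | succ n ih =>
    rw [pow_succ', ih]
    have e : r l (n + 3) = l * r l (n + 2) - r l (n + 1) := rfl
    have e' : r l (n + 2) = l * r l (n + 1) - r l n := rfl
    ext i j
    fin_cases i <;> fin_cases j <;>
      simp [T, Matrix.mul_apply, Fin.sum_univ_two, e] <;> rw [e'] <;> ring

lemma cassini (l : R) (n : ℕ) : r l (n + 1) ^ 2 - r l n * r l (n + 2) = 1 := by
  have h := congrArg Matrix.det (T_pow l n)
  rw [Matrix.det_pow, det_T, one_pow, Matrix.det_fin_two_of] at h
  linear_combination -h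

lemma r_map {S : Type*} [CommRing S] (f : R →+* S) (l : R) (n : ℕ) : f (r l n) = r (f l) n := by
  induction n using Nat.strong_induction_on with
  | _ n ih =>
    match n with
    | 0 => simp [r]
    | 1 => simp [r]
    | n + 2 => rw [r, r, map_sub, map_mul, ih (n + 1) (by omega), ih n (by omega)]

/-- the three sums -/
def sa (l : R) (V : ℕ → R) (n : ℕ) : R := ∑ i ∈ Finset.range n, V i * r l (i + 1) ^ 2
/-- the three sums -/
def sb (l : R) (V : ℕ → R) (n : ℕ) : R := ∑ i ∈ Finset.range n, V i * (r l (i + 1) * r l (i + 2))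
/-- the three sums -/
def sd (l : R) (V : ℕ → R) (n : ℕ) : R := ∑ i ∈ Finset.range n, V i * r l (i + 2) ^ 2

lemma first_order (V : ℕ → R) (hV : ∀ i j, V i * V j = 0) (l : R) (n : ℕ) :
    tm (fun i => l - V i) n = T l ^ n * !![1 + sb l V n, - sa l V n; sd l V n, 1 - sb l V n] := by
  induction n with
  | zero =>
    ext i j
    fin_cases i <;> fin_cases j <;> simp [tm, sa, sb, sd]
  | succ n ih =>
    have hVa : V n * sa l V n = 0 := by
      rw [sa, Finset.mul_sum]
      apply Finset.sum_eq_zero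
      intro i _
      rw [← mul_assoc, hV, zero_mul]
    have hVb : V n * sb l V n = 0 := by
      rw [sb, Finset.mul_sum]
      apply Finset.sum_eq_zero
      intro i _
      rw [← mul_assoc, hV, zero_mul]
    have hVd : V n * sd l V n = 0 := by
      rw [sd, Finset.mul_sum]
      apply Finset.sum_eq_zero
      intro i _
      rw [← mul_assoc, hV, zero_mul]
    have ea : sa l V (n + 1) = sa l V n + V n * r l (n + 1) ^ 2 := by
      rw [sa, Finset.sum_range_succ]; rfl
    have eb : sb l V (n + 1) = sb l V n + V n * (r l (n + 1) * r l (n + 2)) := by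
      rw [sb, Finset.sum_range_succ]; rfl
    have ed : sd l V (n + 1) = sd l V n + V n * r l (n + 2) ^ 2 := by
      rw [sd, Finset.sum_range_succ]; rfl
    have hc := cassini l (n + 1)
    have e3 : r l (n + 1 + 2) = l * r l (n + 2) - r l (n + 1) := rfl
    have e2 : r l (n + 2) = l * r l (n + 1) - r l n := rfl
    rw [tm, ih, T_pow, T_pow, ea, eb, ed, e3]
    rw [e3] at hc
    ext i j
    fin_cases i <;> fin_cases j
    · simp [T, Matrix.mul_apply, Fin.sum_univ_two]
      linear_combination (-r l (n + 2)) * hVb + r l (n + 1) * hVd + V n * r l (n + 2) * hc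
        + (sd l V n) * e2
    · simp [T, Matrix.mul_apply, Fin.sum_univ_two]
      linear_combination r l (n + 2) * hVa - r l (n + 1) * hVb - V n * r l (n + 1) * hc
        + (1 - sb l V n) * e2
    · simp [T, Matrix.mul_apply, Fin.sum_univ_two]
      ring
    · simp [T, Matrix.mul_apply, Fin.sum_univ_two]
      ring

end

lemma second_order {m : ℕ} (q : ℕ) (U : ℕ → MvPolynomial (Fin m) ℂ)
    (hU : ∀ i, U i ∈ idealOfVars (Fin m) ℂ) (l c : ℂ) (hc : c * c = 1)
    (hT : T l ^ q = c • (1 : Matrix (Fin 2) (Fin 2) ℂ))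
    (hb : sb (C l) U q = 0) (hd : sd (C l) U q = - sa (C l) U q) :
    (tm (fun i => C l - U i) q).trace - C (2 * c) - C c * sa (C l) U q ^ 2
      ∈ idealOfVars (Fin m) ℂ ^ 3 := by
  set I := idealOfVars (Fin m) ℂ with hI
  set a := sa (C l) U q with ha
  set M := tm (fun i => C l - U i) q with hM
  have hsub : ∀ i j, U i * U j ∈ I ^ 2 := by
    intro i j
    rw [pow_two]; exact Ideal.mul_mem_mul (hU i) (hU j)
  let π : MvPolynomial (Fin m) ℂ →+* MvPolynomial (Fin m) ℂ ⧸ I ^ 2 := Ideal.Quotient.mk (I ^ 2)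
  have h1 : M.map π = tm (fun i => π (C l) - π (U i)) q := by
    rw [hM, tm_map]
    simp only [map_sub]
  have h2 := first_order (fun i => π (U i)) (by
    intro i j
    rw [← map_mul]
    exact Ideal.Quotient.eq_zero_iff_mem.mpr (hsub i j)) (π (C l)) q
  have h3 : T (π (C l)) ^ q = π (C c) • (1 : Matrix (Fin 2) (Fin 2) (MvPolynomial (Fin m) ℂ ⧸ I ^ 2)) := by
    have e1 : (T l).map (π.comp C) = T (π (C l)) := by
      ext i j
      fin_cases i <;> fin_cases j <;> simp [T]
    have e2 := congrArg (fun A : Matrix (Fin 2) (Fin 2) ℂ => A.map (π.comp C)) hT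
    simp only [Matrix.map_pow] at e2
    rw [e1] at e2
    rw [e2]
    ext i j
    fin_cases i <;> fin_cases j <;> simp
  have hsa : sa (π (C l)) (fun i => π (U i)) q = π a := by
    rw [ha, sa, sa, map_sum]
    apply Finset.sum_congr rfl
    intro i _
    rw [map_mul, map_pow, r_map]
  have hsb : sb (π (C l)) (fun i => π (U i)) q = 0 := by
    have : sb (π (C l)) (fun i => π (U i)) q = π (sb (C l) U q) := by
      rw [sb, sb, map_sum]
      apply Finset.sum_congr rfl
      intro i _
      rw [map_mul, map_mul, r_map, r_map]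
    rw [this, hb, map_zero]
  have hsd : sd (π (C l)) (fun i => π (U i)) q = - π a := by
    have : sd (π (C l)) (fun i => π (U i)) q = π (sd (C l) U q) := by
      rw [sd, sd, map_sum]
      apply Finset.sum_congr rfl
      intro i _
      rw [map_mul, map_pow, r_map]
    rw [this, hd, map_neg]
  rw [h3, hsa, hsb, hsd, ← h1] at h2
  have b00 : M 0 0 - C c ∈ I ^ 2 := by
    rw [← Ideal.Quotient.eq]
    simpa [Matrix.mul_apply, Fin.sum_univ_two] using congrFun (congrFun h2 0) 0
  have b11 : M 1 1 - C c ∈ I ^ 2 := by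
    rw [← Ideal.Quotient.eq]
    simpa [Matrix.mul_apply, Fin.sum_univ_two] using congrFun (congrFun h2 1) 1
  have b01 : M 0 1 - (- (C c * a)) ∈ I ^ 2 := by
    rw [← Ideal.Quotient.eq]
    simpa [Matrix.mul_apply, Fin.sum_univ_two] using congrFun (congrFun h2 0) 1
  have b10 : M 1 0 - (- (C c * a)) ∈ I ^ 2 := by
    rw [← Ideal.Quotient.eq]
    simpa [Matrix.mul_apply, Fin.sum_univ_two] using congrFun (congrFun h2 1) 0
  have haI : a ∈ I := by
    rw [ha, sa]
    exact Ideal.sum_mem _ fun i _ => Ideal.mul_mem_right _ _ (hU i)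
  have hdet : M 0 0 * M 1 1 - M 0 1 * M 1 0 = 1 := by
    have := det_tm (fun i => C l - U i) q
    rwa [← hM, Matrix.det_fin_two] at this
  have hcc : (C c : MvPolynomial (Fin m) ℂ) * C c = 1 := by
    rw [← C_mul, hc, C_1]
  have key : M.trace - C (2 * c) - C c * a ^ 2
      = - C c * ((M 0 0 - C c) * (M 1 1 - C c)
        + C c * (a * ((M 0 1 - (- (C c * a))) + (M 1 0 - (- (C c * a)))))
        - (M 0 1 - (- (C c * a))) * (M 1 0 - (- (C c * a)))) := by
    have e2 : (C (2 * c) : MvPolynomial (Fin m) ℂ) = 2 * C c := by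
      rw [C_mul]; congr 1
    rw [Matrix.trace_fin_two, e2]
    linear_combination (C c) * hdet + (-M 0 0 - M 1 1 + C c + a ^ 2 * C c) * hcc
  rw [key]
  apply Ideal.mul_mem_left
  have h4 : I ^ 4 ≤ I ^ 3 := Ideal.pow_le_pow_right (by norm_num)
  have m22 : ∀ x y : MvPolynomial (Fin m) ℂ, x ∈ I ^ 2 → y ∈ I ^ 2 → x * y ∈ I ^ 3 := by
    intro x y hx hy
    apply h4
    have : I ^ 4 = I ^ 2 * I ^ 2 := by rw [← pow_add]
    rw [this]
    exact Ideal.mul_mem_mul hx hy
  have m12 : ∀ y : MvPolynomial (Fin m) ℂ, y ∈ I ^ 2 → a * y ∈ I ^ 3 := by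
    intro y hy
    have : I ^ 3 = I * I ^ 2 := by rw [← pow_succ']
    rw [this]
    exact Ideal.mul_mem_mul haI hy
  exact Ideal.sub_mem _ (Ideal.add_mem _ (m22 _ _ b00 b11)
    (Ideal.mul_mem_left _ _ (m12 _ (Ideal.add_mem _ b01 b10)))) (m22 _ _ b01 b10)

end Pool.Agent.R991.Flo
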