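import Pool.Agent.R991.FloLin

/-!
# The closed gaps, and the existence theorem
-/

set_option autoImplicit false

namespace Pool.Agent.R991.Flo

open MvPolynomial

lemma r_closed (ω : ℂ) (hω : ω ≠ 0) (n : ℕ) :
    r (ω + ω⁻¹) n * (ω - ω⁻¹) = ω ^ n * ω⁻¹ - ω * ω⁻¹ ^ n := by
  have h1 : ω * ω⁻¹ = 1 := mul_inv_cancel₀ hω
  induction n using Nat.strong_induction_on with
  | _ n ih =>
    match n with
    | 0 => simp [r]
    | 1 => simp [r]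
    | n + 2 =>
      have i1 := ih (n + 1) (by omega)
      have i2 := ih n (by omega)
      rw [r]
      have e : (((ω + ω⁻¹) * r (ω + ω⁻¹) (n + 1)) - r (ω + ω⁻¹) n) * (ω - ω⁻¹)
          = (ω + ω⁻¹) * (r (ω + ω⁻¹) (n + 1) * (ω - ω⁻¹)) - r (ω + ω⁻¹) n * (ω - ω⁻¹) := by ring
      rw [e, i1, i2]
      linear_combination (ω ^ n * ω⁻¹ - ω * ω⁻¹ ^ n) * h1

section closed
variable {q : ℕ} {ω c : ℂ} (hω : ω ≠ 0) (hc : ω ^ q = c) (hcc : c * c = 1) (h2 : ω ^ 2 ≠ 1)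
include hω hc hcc h2

lemma sub_ne : ω - ω⁻¹ ≠ 0 := by
  intro h
  apply h2
  have h1 : ω * ω⁻¹ = 1 := mul_inv_cancel₀ hω
  rw [pow_two]
  linear_combination ω * h + h1

lemma inv_pow_q : ω⁻¹ ^ q = c := by
  rw [inv_pow, hc]
  have : c ≠ 0 := by
    rintro rfl
    simp at hcc
  field_simp
  rw [pow_two, hcc]

lemma r_refl (j : ℕ) (hj : j ≤ q + 1) :
    r (ω + ω⁻¹) (q + 1 - j) = - c * r (ω + ω⁻¹) (j + 1) := by
  have h1 : ω * ω⁻¹ = 1 := mul_inv_cancel₀ hω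
  have hv := inv_pow_q hω hc hcc h2
  apply mul_right_cancel₀ (sub_ne hω hc hcc h2)
  rw [mul_assoc, r_closed ω hω, r_closed ω hω]
  obtain ⟨k, hk⟩ : ∃ k, q + 1 = k + j := ⟨q + 1 - j, by omega⟩
  rw [hk, Nat.add_sub_cancel]
  have hpow : ∀ j, (ω ^ j) * (ω⁻¹ ^ j) = 1 := by
    intro j; rw [← mul_pow, h1, one_pow]
  have a1 : ω ^ k = c * ω * ω⁻¹ ^ j := by
    have : ω ^ k * ω ^ j = c * ω := by
      rw [← pow_add, ← hk, pow_succ, hc]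
    calc ω ^ k = ω ^ k * (ω ^ j * ω⁻¹ ^ j) := by rw [hpow, mul_one]
      _ = _ := by rw [← mul_assoc, this]
  have a2 : ω⁻¹ ^ k = c * ω⁻¹ * ω ^ j := by
    have : ω⁻¹ ^ k * ω⁻¹ ^ j = c * ω⁻¹ := by
      rw [← pow_add, ← hk, pow_succ, hv]
    calc ω⁻¹ ^ k = ω⁻¹ ^ k * (ω ^ j * ω⁻¹ ^ j) := by rw [hpow, mul_one]
      _ = (ω⁻¹ ^ k * ω⁻¹ ^ j) * ω ^ j := by ring
      _ = _ := by rw [this]
  rw [a1, a2]
  ring

lemma T_pow_q : T (ω + ω⁻¹) ^ q = c • (1 : Matrix (Fin 2) (Fin 2) ℂ) := by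
  have b1 : r (ω + ω⁻¹) (q + 1) = 0 := by
    have := r_refl hω hc hcc h2 0 (by omega)
    simpa [r] using this
  have b0 : r (ω + ω⁻¹) q = - c := by
    have := r_refl hω hc hcc h2 1 (by omega)
    simpa [r] using this
  have b2 : r (ω + ω⁻¹) (q + 2) = c := by
    rw [r, b1, b0]; ring
  rw [T_pow, b0, b1, b2]
  ext i j
  fin_cases i <;> fin_cases j <;> simp

lemma sq_refl1 (i : ℕ) (hi : i < q) :
    r (ω + ω⁻¹) (q - 1 - i + 2) ^ 2 = r (ω + ω⁻¹) (i + 1) ^ 2 := by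
  have := r_refl hω hc hcc h2 i (by omega)
  have e : q - 1 - i + 2 = q + 1 - i := by omega
  rw [e, this, mul_pow, neg_pow, pow_two c, hcc]
  ring

lemma prod_refl (i : ℕ) (hi : i < q) :
    r (ω + ω⁻¹) (q - 1 - i + 1) * r (ω + ω⁻¹) (q - 1 - i + 2)
      = r (ω + ω⁻¹) (i + 1) * r (ω + ω⁻¹) (i + 2) := by
  have h1 := r_refl hω hc hcc h2 i (by omega)
  have h3 := r_refl hω hc hcc h2 (i + 1) (by omega)
  have e : q - 1 - i + 2 = q + 1 - i := by omega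
  have e' : q - 1 - i + 1 = q + 1 - (i + 1) := by omega
  rw [e, e', h1, h3]
  linear_combination (r (ω + ω⁻¹) (i + 1) * r (ω + ω⁻¹) (i + 2)) * hcc

end closed

lemma anti_sum {R : Type*} [CommRing R] (q : ℕ) (V g : ℕ → R)
    (hV : ∀ i < q, V (q - 1 - i) = - V i) :
    ∑ i ∈ Finset.range q, V i * g i = - ∑ i ∈ Finset.range q, V i * g (q - 1 - i) := by
  rw [← Finset.sum_range_reflect (fun i => V i * g i) q, ← Finset.sum_neg_distrib]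
  apply Finset.sum_congr rfl
  intro i hi
  rw [hV i (Finset.mem_range.mp hi)]
  ring

section
variable {R : Type*} [CommRing R] [IsDomain R] [CharZero R]

lemma sb_zero {q : ℕ} {ω c : ℂ} (hω : ω ≠ 0) (hc : ω ^ q = c) (hcc : c * c = 1) (h2 : ω ^ 2 ≠ 1)
    (f : ℂ →+* R) (V : ℕ → R) (hV : ∀ i < q, V (q - 1 - i) = - V i) :
    sb (f (ω + ω⁻¹)) V q = 0 := by
  have h := anti_sum q V (fun i => r (f (ω + ω⁻¹)) (i + 1) * r (f (ω + ω⁻¹)) (i + 2)) hV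
  have e : ∑ i ∈ Finset.range q, V i * (fun i => r (f (ω + ω⁻¹)) (i + 1) * r (f (ω + ω⁻¹)) (i + 2))
      (q - 1 - i) = ∑ i ∈ Finset.range q, V i * (r (f (ω + ω⁻¹)) (i + 1) * r (f (ω + ω⁻¹)) (i + 2)) := by
    apply Finset.sum_congr rfl
    intro i hi
    simp only [← r_map f, ← map_mul]
    rw [prod_refl hω hc hcc h2 i (Finset.mem_range.mp hi)]
  rw [e] at h
  change sb (f (ω + ω⁻¹)) V q = - sb (f (ω + ω⁻¹)) V q at h
  exact self_eq_neg.mp h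

lemma sd_eq {q : ℕ} {ω c : ℂ} (hω : ω ≠ 0) (hc : ω ^ q = c) (hcc : c * c = 1) (h2 : ω ^ 2 ≠ 1)
    (f : ℂ →+* R) (V : ℕ → R) (hV : ∀ i < q, V (q - 1 - i) = - V i) :
    sd (f (ω + ω⁻¹)) V q = - sa (f (ω + ω⁻¹)) V q := by
  have h := anti_sum q V (fun i => r (f (ω + ω⁻¹)) (i + 2) ^ 2) hV
  have e : ∑ i ∈ Finset.range q, V i * (fun i => r (f (ω + ω⁻¹)) (i + 2) ^ 2)
      (q - 1 - i) = ∑ i ∈ Finset.range q, V i * (r (f (ω + ω⁻¹)) (i + 1) ^ 2) := by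
    apply Finset.sum_congr rfl
    intro i hi
    simp only [← r_map f, ← map_pow]
    rw [sq_refl1 hω hc hcc h2 i (Finset.mem_range.mp hi)]
  rw [e] at h
  exact h

end

/-- The vanishing of the sine transform. -/
lemma dft_zero {q : ℕ} {ω c : ℂ} (hω : ω ≠ 0) (hc : ω ^ q = c) (hcc : c * c = 1) (h2 : ω ^ 2 ≠ 1)
    (V : ℕ → ℂ) (hV : ∀ i < q, V (q - 1 - i) = - V i) (hsa : sa (ω + ω⁻¹) V q = 0) :
    ∑ i ∈ Finset.range q, V i * (ω ^ 2) ^ i = 0 ∧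
      ∑ i ∈ Finset.range q, V i * (ω⁻¹ ^ 2) ^ i = 0 := by
  have h1 : ω * ω⁻¹ = 1 := mul_inv_cancel₀ hω
  have hv := inv_pow_q hω hc hcc h2
  -- the sum of the entries
  have hsum : ∑ i ∈ Finset.range q, V i = 0 := by
    have h := anti_sum q V (fun _ => 1) hV
    simp only [mul_one] at h
    exact self_eq_neg.mp h
  have e1 : ∑ i ∈ Finset.range q, V i * (ω ^ 2) ^ i + ∑ i ∈ Finset.range q, V i * (ω⁻¹ ^ 2) ^ i
      = 0 := by
    have e2 : sa (ω + ω⁻¹) V q * (ω - ω⁻¹) ^ 2 = ∑ i ∈ Finset.range q, V i * (ω ^ 2) ^ i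
        + ∑ i ∈ Finset.range q, V i * (ω⁻¹ ^ 2) ^ i - 2 * ∑ i ∈ Finset.range q, V i := by
      rw [sa, Finset.sum_mul, Finset.mul_sum, ← Finset.sum_add_distrib, ← Finset.sum_sub_distrib]
      apply Finset.sum_congr rfl
      intro i _
      have e3 : V i * r (ω + ω⁻¹) (i + 1) ^ 2 * (ω - ω⁻¹) ^ 2
          = V i * (r (ω + ω⁻¹) (i + 1) * (ω - ω⁻¹)) ^ 2 := by ring
      rw [e3, r_closed ω hω]
      have e4 : ω ^ (i + 1) * ω⁻¹ = ω ^ i := by rw [pow_succ, mul_assoc, h1, mul_one]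
      have e5 : ω * ω⁻¹ ^ (i + 1) = ω⁻¹ ^ i := by rw [pow_succ', ← mul_assoc, h1, one_mul]
      have e6 : ω ^ i * ω⁻¹ ^ i = 1 := by rw [← mul_pow, h1, one_pow]
      rw [e4, e5, ← pow_mul, ← pow_mul]
      have e7 : ω ^ (2 * i) = (ω ^ i) ^ 2 := by rw [← pow_mul]; ring_nf
      have e8 : ω⁻¹ ^ (2 * i) = (ω⁻¹ ^ i) ^ 2 := by rw [← pow_mul]; ring_nf
      rw [e7, e8]
      linear_combination (-2 * V i) * e6
    rw [hsa, zero_mul, hsum, mul_zero, sub_zero] at e2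
    exact e2.symm
  -- the symmetry
  have e2 : ∑ i ∈ Finset.range q, V i * (ω⁻¹ ^ 2) ^ i
      = - (ω ^ 2 * ∑ i ∈ Finset.range q, V i * (ω ^ 2) ^ i) := by
    rw [anti_sum q V (fun i => (ω⁻¹ ^ 2) ^ i) hV, Finset.mul_sum]
    congr 1
    apply Finset.sum_congr rfl
    intro i hi
    have hi' := Finset.mem_range.mp hi
    have e3 : (ω⁻¹ ^ 2) ^ (q - 1 - i) * (ω⁻¹ ^ 2) ^ (i + 1) = 1 := by
      rw [← pow_add, show q - 1 - i + (i + 1) = q by omega, ← pow_mul, mul_comm, pow_mul, hv,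
        pow_two, hcc]
    have e4 : (ω⁻¹ ^ 2) ^ (i + 1) * (ω ^ 2) ^ (i + 1) = 1 := by
      rw [← mul_pow, ← mul_pow, mul_comm ω⁻¹, h1]; simp
    calc V i * (ω⁻¹ ^ 2) ^ (q - 1 - i)
        = V i * (ω⁻¹ ^ 2) ^ (q - 1 - i) * ((ω⁻¹ ^ 2) ^ (i + 1) * (ω ^ 2) ^ (i + 1)) := by
          rw [e4, mul_one]
      _ = V i * ((ω⁻¹ ^ 2) ^ (q - 1 - i) * (ω⁻¹ ^ 2) ^ (i + 1)) * (ω ^ 2) ^ (i + 1) := by ring
      _ = _ := by rw [e3]; ring
  have e3 : (1 - ω ^ 2) * ∑ i ∈ Finset.range q, V i * (ω ^ 2) ^ i = 0 := by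
    rw [e2] at e1
    linear_combination e1
  have e4 : ∑ i ∈ Finset.range q, V i * (ω ^ 2) ^ i = 0 := by
    rcases mul_eq_zero.mp e3 with h | h
    · exact absurd (sub_eq_zero.mp h).symm h2
    · exact h
  refine ⟨e4, ?_⟩
  rw [e2, e4, mul_zero, neg_zero]

end Pool.Agent.R991.Flo
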