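import Pool.Agent.R991.FloTr

/-!
# Singular points from periodic extensions
-/

set_option autoImplicit false

namespace Pool.Agent.R991.Flo

open Polynomial

/-! ### Dual numbers -/

/-- The point `a + ε w` -/
noncomputable def dpt {m : ℕ} (a w : Fin m → ℂ) (j : Fin m) : DualNumber ℂ :=
  TrivSqZeroExt.inl (a j) + TrivSqZeroExt.inr (w j)

/-- Evaluation at `a + ε w` -/
noncomputable def dev {m : ℕ} (a w : Fin m → ℂ) : MvPolynomial (Fin m) ℂ →ₐ[ℂ] DualNumber ℂ :=
  MvPolynomial.aeval (dpt a w)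

lemma fst_dev {m : ℕ} (a w : Fin m → ℂ) (f : MvPolynomial (Fin m) ℂ) :
    (dev a w f).fst = MvPolynomial.eval a f := by
  induction f using MvPolynomial.induction_on with
  | C c =>
    rw [dev, MvPolynomial.aeval_C, MvPolynomial.eval_C]
    rfl
  | add f g hf hg => rw [map_add, map_add, TrivSqZeroExt.fst_add, hf, hg]
  | mul_X f i hf =>
    rw [map_mul, map_mul, TrivSqZeroExt.fst_mul, hf, dev, MvPolynomial.aeval_X,
      MvPolynomial.eval_X]
    simp [dpt]

lemma snd_dev {m : ℕ} (a w : Fin m → ℂ) (f : MvPolynomial (Fin m) ℂ) :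
    (dev a w f).snd = ∑ j, w j * MvPolynomial.eval a (MvPolynomial.pderiv j f) := by
  induction f using MvPolynomial.induction_on with
  | C c =>
    rw [dev, MvPolynomial.aeval_C]
    simp
    rfl
  | add f g hf hg =>
    rw [map_add, TrivSqZeroExt.snd_add, hf, hg, ← Finset.sum_add_distrib]
    apply Finset.sum_congr rfl
    intro j _
    rw [map_add, map_add, mul_add]
  | mul_X f i hf =>
    rw [map_mul, TrivSqZeroExt.snd_mul, hf, fst_dev]
    have e : dev a w (MvPolynomial.X i) = dpt a w i := by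
      rw [dev, MvPolynomial.aeval_X]
    rw [e]
    simp only [dpt, TrivSqZeroExt.snd_add, TrivSqZeroExt.snd_inl, TrivSqZeroExt.snd_inr, zero_add,
      TrivSqZeroExt.fst_add, TrivSqZeroExt.fst_inl, TrivSqZeroExt.fst_inr, add_zero, smul_eq_mul,
      MvPolynomial.pderiv_mul, map_add, map_mul, MvPolynomial.eval_X, MvPolynomial.pderiv_X]
    rw [MulOpposite.smul_eq_mul_unop, MulOpposite.unop_op, Finset.sum_mul]
    have h2 : MvPolynomial.eval a f * w i = ∑ j, w j * (MvPolynomial.eval a f *
        MvPolynomial.eval a ((Pi.single j (1 : MvPolynomial (Fin m) ℂ) : Fin m → _) i)) := by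
      rw [Finset.sum_eq_single i]
      · simp; ring
      · intro b _ hb
        simp [Pi.single_apply, hb.symm]
      · simp
    rw [h2, ← Finset.sum_add_distrib]
    apply Finset.sum_congr rfl
    intro j _
    ring

/-- The linear map `w ↦ (∂_w p'_k (a))_k`. -/
noncomputable def tangent (q : ℕ) (a : Fin (q / 2) → ℂ) :
    (Fin (q / 2) → ℂ) →ₗ[ℂ] (Fin (q / 2) → ℂ) where
  toFun w k := ∑ j, w j * MvPolynomial.eval a (MvPolynomial.pderiv j (pPrime q k))
  map_add' w w' := by
    funext k
    simp only [Pi.add_apply, add_mul, Finset.sum_add_distrib]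
  map_smul' c w := by
    funext k
    simp only [Pi.smul_apply, smul_eq_mul, RingHom.id_apply, Finset.mul_sum, mul_assoc]

/-- If the tangent map is not injective, the local ring surjects onto the dual numbers. -/
theorem rank_ge {q : ℕ} (a : Fin (q / 2) → ℂ) (ha : a ∈ zeroSet q)
    (w : Fin (q / 2) → ℂ) (hw : w ≠ 0) (ht : tangent q a w = 0) :
    2 ≤ mult q a := by
  unfold mult
  have hI : ∀ f ∈ idealI q, dev a w f = 0 := by
    intro f hf
    have hle : idealI q ≤ RingHom.ker (dev a w).toRingHom := by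
      rw [idealI, Ideal.span_le]
      rintro _ ⟨k, rfl⟩
      rw [SetLike.mem_coe, RingHom.mem_ker]
      change dev a w (pPrime q k) = 0
      apply TrivSqZeroExt.ext
      · rw [fst_dev]
        exact ha _ (Ideal.subset_span ⟨k, rfl⟩)
      · rw [snd_dev]
        exact congrFun ht k
    exact hle hf
  let g : (MvPolynomial (Fin (q / 2)) ℂ ⧸ idealI q) →ₐ[ℂ] DualNumber ℂ :=
    Ideal.Quotient.liftₐ (idealI q) (dev a w) hI
  have hg : ∀ f, g (Ideal.Quotient.mk (idealI q) f) = dev a w f := fun f => rfl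
  have hu : ∀ y : ((nonvanishing a).map (Ideal.Quotient.mk (idealI q))), IsUnit (g y) := by
    rintro ⟨y, hy⟩
    obtain ⟨f, hf, rfl⟩ := hy
    change IsUnit (g (Ideal.Quotient.mk (idealI q) f))
    rw [hg, TrivSqZeroExt.isUnit_iff_isUnit_fst, fst_dev]
    exact isUnit_iff_ne_zero.mpr hf
  let G : Localization ((nonvanishing a).map (Ideal.Quotient.mk (idealI q))) →ₐ[ℂ] DualNumber ℂ :=
    IsLocalization.liftAlgHom (M := (nonvanishing a).map (Ideal.Quotient.mk (idealI q)))
      (f := g) hu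
  have hG : ∀ f, G (algebraMap _ _ (Ideal.Quotient.mk (idealI q) f)) = dev a w f := by
    intro f
    exact IsLocalization.lift_eq _ _
  let L : DualNumber ℂ →ₗ[ℂ] ℂ × ℂ :=
    { toFun := fun x => (x.fst, x.snd)
      map_add' := by intro x y; simp
      map_smul' := by intro c x; simp }
  obtain ⟨j, hj⟩ : ∃ j, w j ≠ 0 := by
    by_contra h
    push Not at h
    exact hw (funext h)
  have hs : Function.Surjective (L ∘ₗ G.toLinearMap) := by
    rintro ⟨x, y⟩
    refine ⟨algebraMap _ _ (Ideal.Quotient.mk (idealI q)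
      (MvPolynomial.C x + MvPolynomial.C (y / w j) * (MvPolynomial.X j - MvPolynomial.C (a j)))), ?_⟩
    rw [LinearMap.comp_apply, AlgHom.toLinearMap_apply, hG]
    change ((dev a w _).fst, (dev a w _).snd) = (x, y)
    rw [fst_dev, snd_dev]
    have h1 : MvPolynomial.eval a (MvPolynomial.C x + MvPolynomial.C (y / w j) *
        (MvPolynomial.X j - MvPolynomial.C (a j))) = x := by simp
    rw [h1]
    congr 1
    rw [Finset.sum_eq_single j]
    · simp [MvPolynomial.pderiv_mul]
      field_simp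
    · intro b _ hb
      simp [MvPolynomial.pderiv_mul, MvPolynomial.pderiv_X, Pi.single_apply, hb.symm]
    · simp
  have := LinearMap.rank_le_of_surjective (L ∘ₗ G.toLinearMap) hs
  rw [rank_prod', Module.rank_self] at this
  norm_num at this
  exact this

/-! ### The relation -/

/-- The trace of a unimodular matrix over the dual numbers with scalar reduction is constant. -/
lemma snd_trace (M : Matrix (Fin 2) (Fin 2) (DualNumber ℂ)) (hM : M.det = 1) (c : ℂ)
    (h : M.map TrivSqZeroExt.fst = c • (1 : Matrix (Fin 2) (Fin 2) ℂ)) : (M.trace).snd = 0 := by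
  have h00 : (M 0 0).fst = c := by simpa using congrFun (congrFun h 0) 0
  have h01 : (M 0 1).fst = 0 := by simpa using congrFun (congrFun h 0) 1
  have h10 : (M 1 0).fst = 0 := by simpa using congrFun (congrFun h 1) 0
  have h11 : (M 1 1).fst = c := by simpa using congrFun (congrFun h 1) 1
  rw [Matrix.det_fin_two] at hM
  have h1 := congrArg TrivSqZeroExt.fst hM
  have h2 := congrArg TrivSqZeroExt.snd hM
  simp only [TrivSqZeroExt.fst_sub, TrivSqZeroExt.fst_mul, TrivSqZeroExt.snd_sub,
    TrivSqZeroExt.snd_mul, h00, h01, h10, h11, TrivSqZeroExt.fst_one, TrivSqZeroExt.snd_one,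
    MulOpposite.smul_eq_mul_unop, MulOpposite.unop_op, smul_eq_mul] at h1 h2
  rw [Matrix.trace_fin_two, TrivSqZeroExt.snd_add]
  have hc : c ≠ 0 := by
    rintro rfl
    simp at h1
  apply mul_left_cancel₀ hc
  linear_combination h2

lemma tm_map {R S : Type*} [CommRing R] [CommRing S] (f : R →+* S) (x : ℕ → R) (n : ℕ) :
    (tm x n).map f = tm (fun j => f (x j)) n := by
  induction n with
  | zero => simp [tm]
  | succ n ih =>
    rw [tm, tm, Matrix.map_mul, ih]
    congr 1
    ext i j
    fin_cases i <;> fin_cases j <;> simp [T]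

lemma map_pPrime {S : Type*} [CommRing S] {q : ℕ} (f : MvPolynomial (Fin (q / 2)) ℂ →+* S)
    (k : Fin (q / 2)) : f (pPrime q k) = (-1) ^ (q + (k.val + 1)) *
      (D (antisymmetric q (fun j => f (MvPolynomial.X j))) - D (0 : Fin q → S)).coeff
        (q - 2 * (k.val + 1)) := by
  have e1 : (fun j => f (antisymmetric q (MvPolynomial.X : Fin (q / 2) → _) j))
      = antisymmetric q (fun j => f (MvPolynomial.X j)) := by
    funext j
    simp only [antisymmetric]
    split_ifs <;> simp
  have e2 : (fun j => f ((0 : Fin q → MvPolynomial (Fin (q / 2)) ℂ) j)) = 0 := by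
    funext j; simp
  rw [pPrime, map_mul, map_pow, map_neg, map_one, coeff_sub, coeff_sub, map_sub, ← e1, ← e2,
    ← D_map f, ← D_map f, coeff_map, coeff_map]

lemma mem_zeroSet {q : ℕ} (a : Fin (q / 2) → ℂ) (hD : D (antisymmetric q a) = D (0 : Fin q → ℂ)) :
    a ∈ zeroSet q := by
  intro f hf
  have hle : idealI q ≤ RingHom.ker (MvPolynomial.eval a) := by
    rw [idealI, Ideal.span_le]
    rintro _ ⟨k, rfl⟩
    rw [SetLike.mem_coe, RingHom.mem_ker, map_pPrime]
    have : (fun j => MvPolynomial.eval a (MvPolynomial.X j)) = a := by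
      funext j; simp
    rw [this, hD]
    simp
  exact hle hf

lemma sum_odd {M : Type*} [AddCommMonoid M] (m : ℕ) (f : ℕ → M) (hf : ∀ n, Even n → f n = 0) :
    ∑ n ∈ Finset.range (2 * m + 1), f n = ∑ k : Fin m, f (2 * m + 1 - 2 * (k.val + 1)) := by
  have h1 : ∀ m, ∑ n ∈ Finset.range (2 * m + 1), f n = ∑ j ∈ Finset.range m, f (2 * j + 1) := by
    intro m
    induction m with
    | zero => simp [hf 0]
    | succ m ih =>
      rw [show 2 * (m + 1) + 1 = (2 * m + 1) + 1 + 1 by ring, Finset.sum_range_succ,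
        Finset.sum_range_succ, ih, Finset.sum_range_succ, hf (2 * m + 1 + 1) ⟨m + 1, by ring⟩,
        add_zero]
  rw [h1, ← Finset.sum_range_reflect, Finset.sum_range]
  apply Finset.sum_congr rfl
  intro k _
  congr 1
  have := k.2
  omega

/-- The `ε`-part of `D` at a point where the monodromy matrix is scalar vanishes. -/
lemma snd_eval_D (n : ℕ) (hn : 1 ≤ n) (vv : ℕ → DualNumber ℂ) (l c : ℂ)
    (h1 : tm (fun j => l - (vv j).fst) (2 + n) = c • (1 : Matrix (Fin 2) (Fin 2) ℂ)) :
    ((D (fun j : Fin (2 + n) => vv j.val)).eval (TrivSqZeroExt.inl l)).snd = 0 := by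
  rw [D_eq_trace n hn]
  have e1 : ((tm (xs vv) (2 + n)).trace).eval (TrivSqZeroExt.inl l : DualNumber ℂ)
      = (tm (fun j => TrivSqZeroExt.inl l - vv j) (2 + n)).trace := by
    have := tm_map (evalRingHom (TrivSqZeroExt.inl l : DualNumber ℂ)) (xs vv) (2 + n)
    have e3 : (fun j => evalRingHom (TrivSqZeroExt.inl l : DualNumber ℂ) (xs vv j))
        = fun j => TrivSqZeroExt.inl l - vv j := by
      funext j; simp [xs]
    rw [e3] at this
    rw [← this, Matrix.trace_fin_two, Matrix.trace_fin_two, eval_add]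
    rfl
  have e2 : (tm (fun j => (TrivSqZeroExt.inl l : DualNumber ℂ) - vv j) (2 + n)).map
      TrivSqZeroExt.fst = c • (1 : Matrix (Fin 2) (Fin 2) ℂ) := by
    rw [← h1]
    have := tm_map (TrivSqZeroExt.fstHom ℂ ℂ ℂ).toRingHom
      (fun j => (TrivSqZeroExt.inl l : DualNumber ℂ) - vv j) (2 + n)
    have e3 : (fun j => (TrivSqZeroExt.fstHom ℂ ℂ ℂ).toRingHom
        ((TrivSqZeroExt.inl l : DualNumber ℂ) - vv j)) = fun j => l - (vv j).fst := by
      funext j
      simp
    rw [e3] at this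
    rw [← this]
    rfl
  have e3 := snd_trace _ (det_tm _ _) c e2
  rw [eval_mul, eval_pow, eval_neg, eval_one, eval_sub, e1]
  have e4 : (eval (TrivSqZeroExt.inl l : DualNumber ℂ) (2 : (DualNumber ℂ)[X])) = 2 := by
    simp
  rw [e4]
  have e5 : ∀ x : DualNumber ℂ, x.snd = 0 → (((-1) ^ (2 + n) * (x - 2)) : DualNumber ℂ).snd = 0 := by
    intro x hx
    have h2 : (2 : DualNumber ℂ).snd = 0 := by
      change (TrivSqZeroExt.inl (2 : ℂ) : DualNumber ℂ).snd = 0
      simp
    rcases neg_one_pow_eq_or (DualNumber ℂ) (2 + n) with h | h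
    · rw [h, one_mul, TrivSqZeroExt.snd_sub, hx, h2, sub_zero]
    · rw [h, neg_one_mul, TrivSqZeroExt.snd_neg, TrivSqZeroExt.snd_sub, hx, h2, sub_zero, neg_zero]
  exact e5 _ e3


lemma fst_neg_one_pow (n : ℕ) : (((-1) ^ n : DualNumber ℂ)).fst = (-1) ^ n := by
  rcases Nat.even_or_odd n with h | h
  · rw [h.neg_one_pow, h.neg_one_pow]; simp
  · rw [h.neg_one_pow, h.neg_one_pow]; simp

lemma snd_neg_one_pow (n : ℕ) : (((-1) ^ n : DualNumber ℂ)).snd = 0 := by
  rcases Nat.even_or_odd n with h | h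
  · rw [h.neg_one_pow]; simp
  · rw [h.neg_one_pow]; simp

theorem singular_of (n : ℕ) (hn : 1 ≤ n) (hq : Odd (2 + n)) (v : ℕ → ℂ)
    (hanti : antisymmetric (2 + n) (fun j : Fin ((2 + n) / 2) => v j.val) = fun j => v j.val)
    (hD : D (fun j : Fin (2 + n) => v j.val) = D (0 : Fin (2 + n) → ℂ)) (l : ℂ) (hl : l ≠ 0)
    (h1 : ∃ c : ℂ, tm (fun j => l - v j) (2 + n) = c • (1 : Matrix (Fin 2) (Fin 2) ℂ))
    (h2 : ∃ c : ℂ, tm (fun j => -l - v j) (2 + n) = c • (1 : Matrix (Fin 2) (Fin 2) ℂ))
    (h3 : ∃ c : ℂ, tm (fun _ => l) (2 + n) = c • (1 : Matrix (Fin 2) (Fin 2) ℂ))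
    (h4 : ∃ c : ℂ, tm (fun _ => -l) (2 + n) = c • (1 : Matrix (Fin 2) (Fin 2) ℂ)) :
    (fun j : Fin ((2 + n) / 2) => v j.val) ∈ zeroSet (2 + n) ∧
      2 ≤ mult (2 + n) (fun j : Fin ((2 + n) / 2) => v j.val) := by
  set a : Fin ((2 + n) / 2) → ℂ := fun j => v j.val with ha
  have hz : a ∈ zeroSet (2 + n) := mem_zeroSet a (by rw [hanti, hD])
  refine ⟨hz, ?_⟩
  -- the relation
  have key : ∀ w : Fin ((2 + n) / 2) → ℂ, ∑ k : Fin ((2 + n) / 2),
      ((-1) ^ (2 + n + (k.val + 1)) * l ^ (2 + n - 2 * (k.val + 1))) * tangent (2 + n) a w k = 0 := by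
    intro w
    set vv : ℕ → DualNumber ℂ := fun j =>
      if h : j < 2 + n then antisymmetric (2 + n) (dpt a w) ⟨j, h⟩ else TrivSqZeroExt.inl (v j)
      with hvv
    have hvf : ∀ j, (vv j).fst = v j := by
      intro j
      simp only [hvv]
      split_ifs with h
      · have := congrFun hanti ⟨j, h⟩
        rw [← this]
        simp only [antisymmetric]
        split_ifs <;> simp [dpt, ha]
      · simp
    have hDv : (fun j : Fin (2 + n) => vv j.val) = antisymmetric (2 + n) (dpt a w) := by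
      funext j
      simp [hvv]
    set Z : (DualNumber ℂ)[X] := D (antisymmetric (2 + n) (dpt a w))
      - D (0 : Fin (2 + n) → DualNumber ℂ) with hZ
    have htan : ∀ k, tangent (2 + n) a w k =
        (-1) ^ (2 + n + (k.val + 1)) * (Z.coeff (2 + n - 2 * (k.val + 1))).snd := by
      intro k
      have e := map_pPrime (q := 2 + n) (dev a w).toRingHom k
      have e1 : (fun j => (dev a w).toRingHom (MvPolynomial.X j)) = dpt a w := by
        funext j
        change dev a w (MvPolynomial.X j) = _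
        rw [dev, MvPolynomial.aeval_X]
      rw [e1, ← hZ] at e
      have e2 : tangent (2 + n) a w k = (dev a w (pPrime (2 + n) k)).snd := by
        rw [snd_dev]; rfl
      rw [e2]
      have e3 : dev a w (pPrime (2 + n) k) = (dev a w).toRingHom (pPrime (2 + n) k) := rfl
      rw [e3, e, TrivSqZeroExt.snd_mul, fst_neg_one_pow, snd_neg_one_pow]
      simp
    have hdeg : Z.natDegree < 2 + n := by
      by_contra hcon
      push Not at hcon
      have h0 : Z.coeff Z.natDegree = 0 := by
        rw [hZ, coeff_sub]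
        exact sub_eq_zero.mpr (coeff_D _ _ _ (by rw [← hZ]; exact hcon))
      have h00 : Z = 0 := Polynomial.leadingCoeff_eq_zero.mp h0
      rw [h00] at hcon
      simp at hcon
    have heval : ∀ l : ℂ, (∃ c : ℂ, tm (fun j => l - v j) (2 + n) = c • (1 : Matrix (Fin 2) (Fin 2) ℂ)) →
        (∃ c : ℂ, tm (fun _ => l) (2 + n) = c • (1 : Matrix (Fin 2) (Fin 2) ℂ)) →
        ∑ i ∈ Finset.range (2 + n), (Z.coeff i).snd * l ^ i = 0 := by
      rintro l ⟨c, hc⟩ ⟨c', hc'⟩
      have e1 := snd_eval_D n hn vv l c (by simpa only [hvf] using hc)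
      have e2 := snd_eval_D n hn (fun _ => 0) l c' (by simpa using hc')
      rw [hDv] at e1
      have e3 : (Z.eval (TrivSqZeroExt.inl l : DualNumber ℂ)).snd = 0 := by
        rw [hZ, eval_sub, TrivSqZeroExt.snd_sub, e1]
        change 0 - (eval (TrivSqZeroExt.inl l : DualNumber ℂ)
          (D (fun j : Fin (2 + n) => (0 : DualNumber ℂ)))).snd = 0
        rw [e2, sub_zero]
      rw [Polynomial.eval_eq_sum_range' hdeg, TrivSqZeroExt.snd_sum] at e3
      rw [← e3]
      apply Finset.sum_congr rfl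
      intro i _
      rw [TrivSqZeroExt.inl_pow, TrivSqZeroExt.snd_mul]
      simp
    have s1 := heval l h1 h3
    have s2 := heval (-l) h2 h4
    obtain ⟨m, hm⟩ := hq
    have hm2 : (2 + n) / 2 = m := by omega
    have s3 : ∑ i ∈ Finset.range (2 * m + 1), (Z.coeff i).snd * (l ^ i - (-l) ^ i) = 0 := by
      rw [← hm]
      simp only [mul_sub, Finset.sum_sub_distrib, s1, s2, sub_zero]
    rw [sum_odd m (fun i => (Z.coeff i).snd * (l ^ i - (-l) ^ i))
      (by intro i hi; simp [hi.neg_pow])] at s3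
    subst hm2
    have s4 : ∑ k : Fin ((2 + n) / 2), ((-1) ^ (2 + n + (k.val + 1)) * l ^ (2 + n - 2 * (k.val + 1))) *
        tangent (2 + n) a w k = (1 / 2) * ∑ k : Fin ((2 + n) / 2),
          (Z.coeff (2 * ((2 + n) / 2) + 1 - 2 * (k.val + 1))).snd *
            (l ^ (2 * ((2 + n) / 2) + 1 - 2 * (k.val + 1))
              - (-l) ^ (2 * ((2 + n) / 2) + 1 - 2 * (k.val + 1))) := by
      rw [Finset.mul_sum]
      apply Finset.sum_congr rfl
      intro k _
      have hk := k.2
      have ho : Odd (2 + n - 2 * (k.val + 1)) := ⟨(2 + n) / 2 - (k.val + 1), by omega⟩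
      rw [← hm, htan, ho.neg_pow]
      have h11 : ((-1 : ℂ) ^ (2 + n + (k.val + 1))) * ((-1) ^ (2 + n + (k.val + 1))) = 1 := by
        rw [← mul_pow]; simp
      linear_combination (l ^ (2 + n - 2 * (k.val + 1)) *
        (Z.coeff (2 + n - 2 * (k.val + 1))).snd) * h11
    rw [s4, s3, mul_zero]
  -- not surjective
  have hns : ¬ Function.Surjective (tangent (2 + n) a) := by
    intro hs
    have h0 : 0 < (2 + n) / 2 := by omega
    obtain ⟨w, hw⟩ := hs (Pi.single ⟨0, h0⟩ 1)
    have := key w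
    rw [hw, Finset.sum_eq_single ⟨0, h0⟩] at this
    · simp [hl] at this
    · intro b _ hb
      rw [Pi.single_apply, if_neg hb, mul_zero]
    · simp
  have hni : ¬ Function.Injective (tangent (2 + n) a) := fun h =>
    hns (LinearMap.injective_iff_surjective.mp h)
  have hex : ∃ w, w ≠ 0 ∧ tangent (2 + n) a w = 0 := by
    by_contra hcon
    push Not at hcon
    apply hni
    rw [injective_iff_map_eq_zero]
    intro w hw
    by_contra h0
    exact hcon w h0 hw
  obtain ⟨w, hw, hw2⟩ := hex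
  exact rank_ge a hz w hw hw2

end Pool.Agent.R991.Flo
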