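import Pool.Agent.R991.FloDet
import Pool.Agent.R991.FloDefs

/-!
# Trace formulas
-/

set_option autoImplicit false

namespace Pool.Agent.R991.Flo

open Polynomial

variable {R : Type*} [CommRing R]

/-- `x_j = λ - v_j` -/
noncomputable def xs (v : ℕ → R) (j : ℕ) : R[X] := X - C (v j)

lemma D_eq_trace (n : ℕ) (hn : 1 ≤ n) (v : ℕ → R) :
    D (fun j : Fin (2 + n) => v j.val) = (-1) ^ (2 + n) * ((tm (xs v) (2 + n)).trace - 2) := by
  have h := det_perJ n (1 : R[X]) 1 (by ring) (xs v)
  have e : (floquetMatrix (fun j : Fin (2 + n) => v j.val)).map C - (X : R[X]) • (1 : Matrix _ _ _)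
      = - perJ (2 + n) 1 1 (xs v) := by
    ext1 i j
    have hi := i.2
    have hj := j.2
    simp only [floquetMatrix, perJ, Matrix.sub_apply, Matrix.map_apply, Matrix.of_apply,
      Matrix.smul_apply, Matrix.neg_apply, smul_eq_mul, xs, Matrix.one_apply]
    by_cases h1 : i = j
    · subst h1
      have c2 : ¬ (i.val = 0 ∧ i.val + 1 = 2 + n) := by omega
      have c3 : ¬ (i.val + 1 = i.val) := by omega
      rw [if_pos rfl, if_pos rfl, if_pos rfl, if_neg c2, if_neg c3]
      ring
    · have h1' : i.val ≠ j.val := fun h' => h1 (Fin.ext h')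
      rw [if_neg h1, if_neg h1, if_neg h1]
      by_cases h2 : i.val + 1 = j.val
      · rw [if_pos (by tauto), if_pos h2, if_neg (by omega), if_neg (by omega), if_neg (by omega)]
        simp
      by_cases h3 : j.val + 1 = i.val
      · rw [if_pos (by tauto), if_neg h2, if_pos h3, if_neg (by omega), if_neg (by omega)]
        simp
      by_cases h4 : i.val = 0 ∧ j.val + 1 = 2 + n
      · rw [if_pos (by tauto), if_neg h2, if_neg h3, if_pos h4, if_neg (by omega)]
        simp
      by_cases h5 : j.val = 0 ∧ i.val + 1 = 2 + n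
      · rw [if_pos (by tauto), if_neg h2, if_neg h3, if_neg h4, if_pos h5]
        simp
      · rw [if_neg (by tauto), if_neg h2, if_neg h3, if_neg h4, if_neg h5]
        simp
  rw [D, e, Matrix.det_neg, Fintype.card_fin, h]
  ring

lemma D_map {S : Type*} [CommRing S] (f : R →+* S) {q : ℕ} (V : Fin q → R) :
    (D V).map f = D (fun j => f (V j)) := by
  rw [D, D, ← coe_mapRingHom, RingHom.map_det]
  congr 1
  ext1 i j
  simp only [RingHom.mapMatrix_apply, Matrix.map_apply, Matrix.sub_apply, Matrix.smul_apply,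
    smul_eq_mul, map_sub, map_mul, floquetMatrix, Matrix.of_apply, coe_mapRingHom, map_X,
    Matrix.one_apply]
  split_ifs <;> simp

/-- `D_V` and `D_0` differ only in degrees `< q`. -/
lemma coeff_D [Nontrivial R] {q : ℕ} (V W : Fin q → R) (n : ℕ) (hn : q ≤ n) :
    (D V).coeff n = (D W).coeff n := by
  have key : ∀ V : Fin q → R, D V = (-1) ^ q * (floquetMatrix V).charpoly := by
    intro V
    have : (floquetMatrix V).map C - (X : R[X]) • (1 : Matrix (Fin q) (Fin q) R[X])
        = - (floquetMatrix V).charmatrix := by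
      ext1 i j
      simp only [Matrix.sub_apply, Matrix.map_apply, Matrix.smul_apply, Matrix.neg_apply,
        Matrix.charmatrix_apply, smul_eq_mul, Matrix.one_apply, Matrix.diagonal_apply]
      split_ifs <;> simp
    rw [D, this, Matrix.det_neg, Fintype.card_fin, Matrix.charpoly]
  have key2 : ∀ V : Fin q → R, (floquetMatrix V).charpoly.coeff n = if n = q then 1 else 0 := by
    intro V
    split_ifs with h
    · subst h
      have h1 := Matrix.charpoly_monic (floquetMatrix V)
      have h2 := Matrix.charpoly_natDegree_eq_dim (floquetMatrix V)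
      rw [Fintype.card_fin] at h2
      have := h1.coeff_natDegree
      rwa [h2] at this
    · apply coeff_eq_zero_of_natDegree_lt
      rw [Matrix.charpoly_natDegree_eq_dim, Fintype.card_fin]
      omega
  have hp : ((-1 : R[X]) ^ q) = C ((-1) ^ q) := by simp
  rw [key, key, hp, coeff_C_mul, coeff_C_mul, key2, key2]

/-! ### Products -/

lemma tm_add (x : ℕ → R) (m n : ℕ) : tm x (m + n) = tm (fun j => x (m + j)) n * tm x m := by
  induction n with
  | zero => simp [tm]
  | succ n ih => rw [← add_assoc, tm, ih, tm, mul_assoc]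

lemma tm_mul (x : ℕ → R) (a : ℕ) (hx : ∀ j, x (j + a) = x j) (b : ℕ) :
    tm x (a * b) = tm x a ^ b := by
  induction b with
  | zero => simp [tm]
  | succ b ih =>
    have : ∀ b j, x (a * b + j) = x j := by
      intro b
      induction b with
      | zero => intro j; simp
      | succ b ih => intro j; rw [show a * (b + 1) + j = (a * b + j) + a by ring, hx, ih]
    rw [mul_add, mul_one, tm_add, ih, pow_succ']
    congr 2
    funext j
    exact this b j

lemma cayley (M : Matrix (Fin 2) (Fin 2) R) (hM : M.det = 1) :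
    M * M = M.trace • M - 1 := by
  rw [Matrix.det_fin_two] at hM
  ext i j
  fin_cases i <;> fin_cases j <;>
    simp [Matrix.mul_apply, Fin.sum_univ_two, Matrix.trace_fin_two] <;>
    first | ring1 | linear_combination hM | linear_combination -hM

lemma trace_pow_congr (M N : Matrix (Fin 2) (Fin 2) R) (hM : M.det = 1) (hN : N.det = 1)
    (h : M.trace = N.trace) (b : ℕ) : (M ^ b).trace = (N ^ b).trace := by
  induction b using Nat.strong_induction_on with
  | _ b ih =>
    match b with
    | 0 => simp
    | 1 => simpa using h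
    | b + 2 =>
      have key : ∀ M : Matrix (Fin 2) (Fin 2) R, M.det = 1 →
          (M ^ (b + 2)).trace = M.trace * (M ^ (b + 1)).trace - (M ^ b).trace := by
        intro M hM
        have : M ^ (b + 2) = M.trace • M ^ (b + 1) - M ^ b := by
          rw [pow_add, pow_two, cayley M hM, mul_sub, mul_one, mul_smul_comm, pow_succ]
        rw [this, Matrix.trace_sub, Matrix.trace_smul, smul_eq_mul]
      rw [key M hM, key N hN, h, ih (b + 1) (by omega), ih b (by omega)]

/-- Powers of a unimodular matrix with trace `2 cos θ`. -/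
lemma pow_sin (M : Matrix (Fin 2) (Fin 2) ℂ) (hM : M.det = 1) (θ : ℂ)
    (h : M.trace = 2 * Complex.cos θ) (n : ℕ) :
    Complex.sin θ • M ^ n = Complex.sin (n * θ) • M - Complex.sin (n * θ - θ) • (1 : Matrix _ _ ℂ) := by
  induction n with
  | zero => simp
  | succ n ih =>
    rw [pow_succ, ← smul_mul_assoc, ih, sub_mul, smul_mul_assoc, cayley M hM, smul_mul_assoc,
      one_mul, h, smul_sub, smul_smul]
    have e1 : Complex.sin (((n + 1 : ℕ) : ℂ) * θ) =
        Complex.sin (n * θ) * (2 * Complex.cos θ) - Complex.sin (n * θ - θ) := by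
      push_cast
      rw [add_mul, one_mul, Complex.sin_add, Complex.sin_sub]; ring
    have e2 : ((n + 1 : ℕ) : ℂ) * θ - θ = n * θ := by push_cast; ring
    rw [e2, e1, sub_smul]
    abel

/-- At the closed gaps the monodromy matrix is scalar. -/
lemma scalar_of_sin (M : Matrix (Fin 2) (Fin 2) ℂ) (hM : M.det = 1) (θ : ℂ)
    (h : M.trace = 2 * Complex.cos θ) (n : ℕ) (h0 : Complex.sin θ ≠ 0)
    (h1 : Complex.sin (n * θ) = 0) :
    ∃ c : ℂ, M ^ n = c • (1 : Matrix (Fin 2) (Fin 2) ℂ) := by
  refine ⟨- (Complex.sin (n * θ - θ)) / Complex.sin θ, ?_⟩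
  have := pow_sin M hM θ h n
  rw [h1, zero_smul, zero_sub] at this
  have h2 : M ^ n = (Complex.sin θ)⁻¹ • (Complex.sin θ • M ^ n) := by
    rw [smul_smul, inv_mul_cancel₀ h0, one_smul]
  rw [h2, this, ← neg_smul, smul_smul]
  congr 1
  rw [div_eq_inv_mul]

lemma tm_const (x : R) (n : ℕ) : tm (fun _ => x) n = T x ^ n := by
  induction n with
  | zero => simp [tm]
  | succ n ih => rw [tm, ih, pow_succ']

lemma trace_tm_const (θ : ℂ) (n : ℕ) (h0 : Complex.sin θ ≠ 0) :
    (tm (fun _ => 2 * Complex.cos θ) n).trace = 2 * Complex.cos (n * θ) := by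
  have h1 := pow_sin (T (2 * Complex.cos θ)) (det_T _) θ (by simp [T, Matrix.trace_fin_two]) n
  have h2 := congrArg Matrix.trace h1
  rw [Matrix.trace_smul, Matrix.trace_sub, Matrix.trace_smul, Matrix.trace_smul] at h2
  rw [tm_const]
  apply mul_left_cancel₀ h0
  simp only [smul_eq_mul, Matrix.trace_one, Fintype.card_fin] at h2
  rw [h2]
  simp [T, Matrix.trace_fin_two]
  rw [Complex.sin_sub]
  ring

end Pool.Agent.R991.Flo
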