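import Pool.Agent.R991.FloSing
import Pool.Agent.R991.AlgC

/-!
# Parity, and the polynomial `D_U - D_0`
-/

set_option autoImplicit false

namespace Pool.Agent.R991.Flo

open Polynomial

variable {R : Type*} [CommRing R]

lemma tm_congr (x y : ℕ → R) (n : ℕ) (h : ∀ j < n, x j = y j) : tm x n = tm y n := by
  induction n with
  | zero => rfl
  | succ n ih =>
    rw [tm, tm, h n (Nat.lt_succ_self n), ih (fun j hj => h j (hj.trans (Nat.lt_succ_self n)))]

/-- the reflection -/
def J : Matrix (Fin 2) (Fin 2) R := !![1, 0; 0, -1]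

lemma J_mul_J : (J : Matrix (Fin 2) (Fin 2) R) * J = 1 := by
  ext i j
  fin_cases i <;> fin_cases j <;> simp [J, Matrix.mul_apply, Fin.sum_univ_two]

lemma T_transpose (x : R) : (T x).transpose = J * T x * J := by
  ext i j
  fin_cases i <;> fin_cases j <;> simp [J, T, Matrix.mul_apply, Fin.sum_univ_two]

lemma T_neg (x : R) : T (-x) = - (J * T x * J) := by
  ext i j
  fin_cases i <;> fin_cases j <;> simp [J, T, Matrix.mul_apply, Fin.sum_univ_two]

lemma tm_transpose (x : ℕ → R) (n : ℕ) :
    (tm x n).transpose = J * tm (fun i => x (n - 1 - i)) n * J := by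
  induction n generalizing x with
  | zero => simp [tm, J_mul_J]
  | succ n ih =>
    have e1 : tm (fun i => x (n + 1 - 1 - i)) (n + 1)
        = tm (fun i => x (n - 1 - i)) n * T (x n) := by
      rw [add_comm n 1, tm_add]
      congr 1
      · apply tm_congr
        intro j hj
        congr 1; omega
      · simp [tm]
    rw [e1, tm, Matrix.transpose_mul, ih, T_transpose]
    calc J * tm (fun i => x (n - 1 - i)) n * J * (J * T (x n) * J)
        = J * tm (fun i => x (n - 1 - i)) n * (J * J) * T (x n) * J := by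
          simp only [Matrix.mul_assoc]
      _ = _ := by rw [J_mul_J, Matrix.mul_one]; simp only [Matrix.mul_assoc]

lemma trace_conj (A : Matrix (Fin 2) (Fin 2) R) : (J * A * J).trace = A.trace := by
  rw [Matrix.trace_mul_comm, ← Matrix.mul_assoc, J_mul_J, Matrix.one_mul]

lemma trace_reverse (x : ℕ → R) (n : ℕ) :
    (tm (fun i => x (n - 1 - i)) n).trace = (tm x n).trace := by
  rw [← Matrix.trace_transpose (tm x n), tm_transpose, trace_conj]

lemma tm_neg (x : ℕ → R) (n : ℕ) : tm (fun i => - x i) n = ((-1 : R) ^ n) • (J * tm x n * J) := by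
  induction n with
  | zero => simp [tm, J_mul_J]
  | succ n ih =>
    rw [tm, tm, ih, T_neg, pow_succ]
    rw [mul_smul_comm, neg_mul]
    have : J * T (x n) * J * (J * tm x n * J) = J * (T (x n) * tm x n) * J := by
      calc J * T (x n) * J * (J * tm x n * J)
        = J * T (x n) * (J * J) * tm x n * J := by simp only [Matrix.mul_assoc]
      _ = _ := by rw [J_mul_J, Matrix.mul_one]; simp only [Matrix.mul_assoc]
    rw [this]
    simp

lemma trace_neg (x : ℕ → R) (n : ℕ) :
    (tm (fun i => - x i) n).trace = (-1) ^ n * (tm x n).trace := by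
  rw [tm_neg, Matrix.trace_smul, trace_conj, smul_eq_mul]

/-- Parity. -/
lemma trace_comp (V : ℕ → R) (q : ℕ) (hV : ∀ i < q, V (q - 1 - i) = - V i) :
    ((tm (xs V) q).trace).comp (-X) = (-1) ^ q * (tm (xs V) q).trace := by
  have h1 : ((tm (xs V) q).trace).comp (-X) = (tm (fun i => (xs V i).comp (-X)) q).trace := by
    have := tm_map (Polynomial.compRingHom (-X : R[X])) (xs V) q
    have e : (fun j => Polynomial.compRingHom (-X : R[X]) (xs V j)) = fun i => (xs V i).comp (-X) := rfl
    rw [e] at this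
    rw [← this, Matrix.trace_fin_two, Matrix.trace_fin_two, add_comp]
    rfl
  have h2 : tm (fun i => (xs V i).comp (-X)) q = tm (fun i => - xs V (q - 1 - i)) q := by
    apply tm_congr
    intro j hj
    simp [xs, hV j hj]
    ring
  rw [h1, h2, trace_neg (fun i => xs V (q - 1 - i)) q, trace_reverse]

lemma coeff_comp_neg (p : R[X]) (n : ℕ) : (p.comp (-X)).coeff n = (-1) ^ n * p.coeff n := by
  have : (-X : R[X]) = C (-1) * X := by simp
  rw [this, comp_C_mul_X_coeff]
  ring

/-- The periodic sequence of an antisymmetric potential -/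
def ext (q : ℕ) (u : Fin (q / 2) → R) (i : ℕ) : R :=
  if h : i < q then antisymmetric q u ⟨i, h⟩ else 0

lemma ext_anti (q : ℕ) (u : Fin (q / 2) → R) (i : ℕ) (hi : i < q) :
    ext q u (q - 1 - i) = - ext q u i := by
  have h1 : q - 1 - i < q := by omega
  rw [ext, ext, dif_pos h1, dif_pos hi]
  simp only [antisymmetric]
  by_cases h2 : i < q / 2
  · rw [dif_neg (by omega), dif_pos (by omega), dif_pos h2]
    congr 2
    apply Fin.ext
    simp only; omega
  · by_cases h3 : q - 1 - i < q / 2
    · rw [dif_pos h3, dif_neg h2, dif_pos h3, neg_neg]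
    · rw [dif_neg h3, dif_neg (by omega), dif_neg h2, dif_neg h3, neg_zero]

lemma ext_fun (q : ℕ) (u : Fin (q / 2) → R) :
    (fun j : Fin q => ext q u j.val) = antisymmetric q u := by
  funext j
  simp [ext]

variable [CharZero R] [IsDomain R]

lemma coeff_trace_odd (V : ℕ → R) (q : ℕ) (hV : ∀ i < q, V (q - 1 - i) = - V i) (n : ℕ)
    (hn : Odd (q + n)) : ((tm (xs V) q).trace).coeff n = 0 := by
  have h1 := congrArg (fun p => coeff p n) (trace_comp V q hV)
  simp only [coeff_comp_neg] at h1
  have h2 : ((-1 : R[X]) ^ q * (tm (xs V) q).trace).coeff n = (-1) ^ q * ((tm (xs V) q).trace).coeff n := by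
    have : ((-1 : R[X]) ^ q) = C ((-1) ^ q) := by simp
    rw [this, coeff_C_mul]
  rw [h2] at h1
  have h3 : ((-1 : R) ^ n) = - (-1) ^ q := by
    have h4 : ((-1 : R) ^ (q + n)) = -1 := hn.neg_one_pow
    have h5 : ((-1 : R) ^ q) * (-1) ^ q = 1 := by rw [← mul_pow]; simp
    rw [pow_add] at h4
    linear_combination (-1 : R) ^ q * h4 - (-1 : R) ^ n * h5
  rw [h3] at h1
  have h5 : ((-1 : R) ^ q) ≠ 0 := pow_ne_zero _ (by simp)
  have h6 : (2 : R) * ((-1) ^ q * ((tm (xs V) q).trace).coeff n) = 0 := by linear_combination -h1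
  rcases mul_eq_zero.mp h6 with h | h
  · exact absurd h two_ne_zero
  · exact (mul_eq_zero.mp h).resolve_left h5

/-- `D_U - D_0` in terms of the polynomials `p'_k`. -/
lemma zeta_eq (n : ℕ) (hn : 1 ≤ n) (f : MvPolynomial (Fin ((2 + n) / 2)) ℂ →+* R) :
    D (antisymmetric (2 + n) (fun j => f (MvPolynomial.X j))) - D (0 : Fin (2 + n) → R)
      = ∑ k : Fin ((2 + n) / 2), C ((-1) ^ (2 + n + (k.val + 1)) * f (pPrime (2 + n) k)) *
        X ^ (2 + n - 2 * (k.val + 1)) := by
  set u : Fin ((2 + n) / 2) → R := fun j => f (MvPolynomial.X j) with hu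
  have hk : ∀ k : Fin ((2 + n) / 2), (-1) ^ (2 + n + (k.val + 1)) * f (pPrime (2 + n) k)
      = (D (antisymmetric (2 + n) u) - D (0 : Fin (2 + n) → R)).coeff (2 + n - 2 * (k.val + 1)) := by
    intro k
    rw [map_pPrime, ← mul_assoc, ← mul_pow]
    simp
    rfl
  simp only [hk]
  ext i
  rw [finsetSum_coeff]
  simp only [coeff_C_mul, coeff_X_pow]
  by_cases h1 : 2 + n ≤ i
  · rw [coeff_sub, coeff_D _ (0 : Fin (2 + n) → R) _ h1, sub_self]
    symm
    apply Finset.sum_eq_zero
    intro k _
    have := k.2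
    rw [if_neg (by omega), mul_zero]
  · push Not at h1
    rcases Nat.even_or_odd (2 + n + i) with h2 | h2
    · obtain ⟨t, ht⟩ := h2
      have hlt : 2 + n - t - 1 < (2 + n) / 2 := by omega
      rw [Finset.sum_eq_single ⟨2 + n - t - 1, hlt⟩]
      · have e : 2 + n - 2 * (2 + n - t - 1 + 1) = i := by omega
        simp [e]
      · intro b _ hb
        rw [if_neg, mul_zero]
        intro h3
        apply hb
        apply Fin.ext
        have := b.2
        simp only
        omega
      · simp
    · have e1 : (D (antisymmetric (2 + n) u) - D (0 : Fin (2 + n) → R)).coeff i = 0 := by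
        have a1 := D_eq_trace n hn (ext (2 + n) u)
        have a2 := D_eq_trace n hn (fun _ => (0 : R))
        rw [ext_fun] at a1
        have a3 : (D (0 : Fin (2 + n) → R)) = D (fun _ : Fin (2 + n) => (0 : R)) := rfl
        rw [a3, a1, a2]
        have hp : ((-1 : R[X]) ^ (2 + n)) = C ((-1) ^ (2 + n)) := by simp
        rw [← mul_sub, hp, coeff_C_mul, sub_sub_sub_cancel_right, coeff_sub,
          coeff_trace_odd (ext (2 + n) u) (2 + n) (ext_anti (2 + n) u) i h2,
          coeff_trace_odd (fun _ => (0 : R)) (2 + n) (by simp) i h2]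
        simp
      rw [e1]
      symm
      apply Finset.sum_eq_zero
      intro k _
      have := k.2
      rw [if_neg, mul_zero]
      intro h3
      obtain ⟨t, ht⟩ := h2
      omega

end Pool.Agent.R991.Flo
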